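import Mathlib
import Pool.Agent.Lib_helper80.SR.Hyp

/-!
# SR with new variables: expansion of sets of almost linear size
-/

namespace Pool.Agent.SRN

open Finset Pool.Agent.SR

theorem pow_self_le (r : ℕ) : (r : ℝ) ^ r / (r.factorial : ℝ) ≤ Real.exp r :=
  Real.pow_div_factorial_le_exp (r : ℝ) (Nat.cast_nonneg r) r

/-- `(n choose r) * (r / n) ^ r ≤ e ^ r`. -/
theorem choose_mul_le {n : ℕ} (hn : 0 < n) (r : ℕ) :
    ((n.choose r : ℕ) : ℝ) * ((r : ℝ) / n) ^ r ≤ Real.exp r := by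
  have hnR : (0 : ℝ) < n := by exact_mod_cast hn
  have h1 : ((n.choose r : ℕ) : ℝ) ≤ (n : ℝ) ^ r / (r.factorial : ℝ) := Nat.choose_le_pow_div r n
  calc ((n.choose r : ℕ) : ℝ) * ((r : ℝ) / n) ^ r
      ≤ ((n : ℝ) ^ r / (r.factorial : ℝ)) * ((r : ℝ) / n) ^ r :=
        mul_le_mul_of_nonneg_right h1 (by positivity)
    _ = (r : ℝ) ^ r / (r.factorial : ℝ) := by
        rw [div_pow]
        field_simp
    _ ≤ Real.exp r := pow_self_le r

theorem geo_le (n : ℕ) : ∑ g ∈ range n, (1 / 16 : ℝ) ^ (g + 1) ≤ 1 / 8 := by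
  have h : ∀ n : ℕ, ∑ g ∈ range n, (1 / 16 : ℝ) ^ (g + 1) = (1 - (1 / 16 : ℝ) ^ n) / 15 := by
    intro n
    induction n with
    | zero => simp
    | succ n ih =>
      rw [Finset.sum_range_succ, ih]
      ring
  rw [h]
  have : (0 : ℝ) ≤ (1 / 16 : ℝ) ^ n := by positivity
  linarith

theorem sum_J_le {n s : ℕ} (B : ℕ → ℝ)
    (hB : ∀ g, 1 ≤ g → g ≤ s → ((n.choose g : ℕ) : ℝ) * B g ≤ (1 / 16) ^ g) :
    ∑ J ∈ (univ : Finset (Finset (Fin n))).filter (fun J => J.Nonempty ∧ J.card ≤ s),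
      B J.card ≤ 1 / 8 := by
  classical
  obtain ⟨f, hf⟩ : ∃ f : ℕ → ℝ, ∀ g, f g = if 1 ≤ g ∧ g ≤ s then B g else 0 := ⟨_, fun _ => rfl⟩
  have h1 : ∑ J ∈ (univ : Finset (Finset (Fin n))).filter (fun J => J.Nonempty ∧ J.card ≤ s),
      B J.card = ∑ J ∈ (univ : Finset (Fin n)).powerset, f J.card := by
    rw [Finset.powerset_univ, Finset.sum_filter]
    refine Finset.sum_congr rfl fun J _ => ?_
    have : (J.Nonempty ∧ J.card ≤ s) ↔ (1 ≤ J.card ∧ J.card ≤ s) := by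
      rw [← Finset.card_pos]
      rfl
    rw [hf]
    by_cases h : J.Nonempty ∧ J.card ≤ s
    · rw [if_pos h, if_pos (this.1 h)]
    · rw [if_neg h, if_neg (fun h' => h (this.2 h'))]
  have h2 : f 0 = 0 := by
    rw [hf, if_neg (by omega)]
  rw [h1, Finset.sum_powerset_apply_card f, Finset.card_univ, Fintype.card_fin,
    Finset.sum_range_succ', h2, smul_zero, add_zero]
  refine le_trans (Finset.sum_le_sum fun g _ => ?_) (geo_le n)
  rw [hf]
  split_ifs with h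
  · rw [nsmul_eq_mul]
    exact hB _ h.1 h.2
  · rw [smul_zero]
    positivity

section Bad

variable {V : Type*} [Fintype V] [DecidableEq V] {k m : ℕ}

theorem fr_bad_J2 [Nonempty V] (c : ℕ) (J : Finset (Fin m))
    (hJ : c * J.card ≤ Fintype.card V) :
    fr (fun E : Fin m → (Fin k → V) => (J.biUnion (edge E)).card < c * J.card) ≤
      (((Fintype.card V).choose (c * J.card) : ℕ) : ℝ) *
        ((((c * J.card : ℕ) : ℝ) / Fintype.card V) ^ k) ^ J.card := by
  classical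
  have hn : (0 : ℝ) < Fintype.card V := by exact_mod_cast Fintype.card_pos
  have h1 : fr (fun E : Fin m → Fin k → V => (J.biUnion (edge E)).card < c * J.card) ≤
      fr (fun E : Fin m → Fin k → V => ∃ g ∈ (univ : Finset V).powersetCard (c * J.card),
        ∀ j i, j ∈ J → E j i ∈ g) := by
    refine fr_mono fun E hE => ?_
    obtain ⟨g, hg, hgc⟩ := Finset.exists_superset_card_eq (s := J.biUnion (edge E)) hE.le hJ
    refine ⟨g, Finset.mem_powersetCard.2 ⟨Finset.subset_univ _, hgc⟩, ?_⟩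
    intro j i hj
    exact hg (Finset.mem_biUnion.2 ⟨j, hj, mem_edge E j i⟩)
  refine h1.trans ((fr_exists_le _ _).trans ?_)
  have h2 : ∀ g ∈ (univ : Finset V).powersetCard (c * J.card),
      fr (fun E : Fin m → Fin k → V => ∀ j i, j ∈ J → E j i ∈ g) ≤
        ((((c * J.card : ℕ) : ℝ) / Fintype.card V) ^ k) ^ J.card := by
    intro g hg
    have hgc : g.card = c * J.card := (Finset.mem_powersetCard.1 hg).2
    rw [fr_pi (fun j (e : Fin k → V) => ∀ i, j ∈ J → e i ∈ g)]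
    have h3 : ∀ j, fr (fun e : Fin k → V => ∀ i, j ∈ J → e i ∈ g) ≤
        if j ∈ J then (((c * J.card : ℕ) : ℝ) / Fintype.card V) ^ k else 1 := by
      intro j
      split_ifs with hj
      · rw [fr_pi (fun (_ : Fin k) (v : V) => j ∈ J → v ∈ g), Finset.prod_const,
          Finset.card_univ, Fintype.card_fin]
        refine pow_le_pow_left₀ (fr_nonneg _) ?_ k
        have h4 : fr (fun v : V => j ∈ J → v ∈ g) = (g.card : ℝ) / Fintype.card V := by
          rw [← fr_mem]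
          exact fr_congr fun v => by simp [hj]
        rw [h4, hgc]
      · exact fr_le_one _
    refine (Finset.prod_le_prod (fun j _ => fr_nonneg _) (fun j _ => h3 j)).trans (le_of_eq ?_)
    rw [Finset.prod_ite, Finset.prod_const_one, mul_one, Finset.prod_const]
    congr 2
    ext j; simp
  refine (Finset.sum_le_sum h2).trans (le_of_eq ?_)
  rw [Finset.sum_const, Finset.card_powersetCard, Finset.card_univ, nsmul_eq_mul]

/-- The terms of the union bound. -/
theorem term_le {N n c k s : ℕ} (hN : 0 < N) (hck : c + 1 ≤ k)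
    (h3 : ((n : ℝ) / N) * c * Real.exp (c + 1) * (((c * s : ℕ) : ℝ) / N) ^ (k - c - 1) ≤ 1 / 16)
    {g : ℕ} (hg1 : 1 ≤ g) (hgs : g ≤ s) :
    ((n.choose g : ℕ) : ℝ) * (((N.choose (c * g) : ℕ) : ℝ) *
      ((((c * g : ℕ) : ℝ) / N) ^ k) ^ g) ≤ (1 / 16) ^ g := by
  have hNR : (0 : ℝ) < N := by exact_mod_cast hN
  obtain ⟨d, hd⟩ : ∃ d, k = c + (1 + d) := ⟨k - c - 1, by omega⟩
  have hkd : k - c - 1 = d := by omega
  rw [hkd] at h3
  obtain ⟨y, hy⟩ : ∃ y, y = ((n : ℝ) / N) * c * Real.exp (c + 1) *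
      (((c * s : ℕ) : ℝ) / N) ^ d := ⟨_, rfl⟩
  rw [← hy] at h3
  obtain ⟨x, hx⟩ : ∃ x, x = (((c * g : ℕ) : ℝ) / N) := ⟨_, rfl⟩
  have hx0 : 0 ≤ x := by rw [hx]; positivity
  have hxs : x ≤ ((c * s : ℕ) : ℝ) / N := by
    rw [hx]
    refine div_le_div_of_nonneg_right ?_ hNR.le
    exact_mod_cast Nat.mul_le_mul_left c hgs
  have e1 : ((N.choose (c * g) : ℕ) : ℝ) * x ^ (c * g) ≤ Real.exp ((c * g : ℕ) : ℝ) := by
    rw [hx]
    exact choose_mul_le hN (c * g)
  have e2 : ((n.choose g : ℕ) : ℝ) * x ^ g ≤ (((n : ℝ) / N) * c * Real.exp 1) ^ g := by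
    have f1 : ((n.choose g : ℕ) : ℝ) ≤ (n : ℝ) ^ g / (g.factorial : ℝ) :=
      Nat.choose_le_pow_div g n
    have f2 := pow_self_le g
    calc ((n.choose g : ℕ) : ℝ) * x ^ g ≤ ((n : ℝ) ^ g / (g.factorial : ℝ)) * x ^ g :=
          mul_le_mul_of_nonneg_right f1 (by positivity)
      _ = (((n : ℝ) / N) * c) ^ g * ((g : ℝ) ^ g / (g.factorial : ℝ)) := by
          rw [hx]
          push_cast
          rw [div_pow, mul_pow, mul_pow, div_pow]
          field_simp
      _ ≤ (((n : ℝ) / N) * c) ^ g * Real.exp g :=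
          mul_le_mul_of_nonneg_left f2 (by positivity)
      _ = (((n : ℝ) / N) * c * Real.exp 1) ^ g := by
          rw [mul_pow _ (Real.exp 1), ← Real.exp_nat_mul, mul_one]
  have e3 : (x ^ k) ^ g = x ^ (c * g) * (x ^ g * (x ^ d) ^ g) := by
    rw [hd, ← pow_mul, ← pow_mul, ← pow_add, ← pow_add]
    congr 1
    ring
  rw [← hx, e3]
  have e4 : (x ^ d) ^ g ≤ ((((c * s : ℕ) : ℝ) / N) ^ d) ^ g :=
    pow_le_pow_left₀ (by positivity) (pow_le_pow_left₀ hx0 hxs d) g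
  calc ((n.choose g : ℕ) : ℝ) * (((N.choose (c * g) : ℕ) : ℝ) *
        (x ^ (c * g) * (x ^ g * (x ^ d) ^ g)))
      = (((N.choose (c * g) : ℕ) : ℝ) * x ^ (c * g)) *
          ((((n.choose g : ℕ) : ℝ) * x ^ g) * (x ^ d) ^ g) := by ring
    _ ≤ Real.exp ((c * g : ℕ) : ℝ) * ((((n : ℝ) / N) * c * Real.exp 1) ^ g *
          ((((c * s : ℕ) : ℝ) / N) ^ d) ^ g) := by
        refine mul_le_mul e1 (mul_le_mul e2 e4 (by positivity) (by positivity)) (by positivity)
          (by positivity)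
    _ = y ^ g := by
        rw [hy, mul_pow _ ((((c * s : ℕ) : ℝ) / N) ^ d), Real.exp_add, ← mul_assoc, ← mul_assoc]
        congr 1
        rw [show ((c * g : ℕ) : ℝ) = (g : ℝ) * (c : ℝ) by push_cast; ring, Real.exp_nat_mul,
          ← mul_pow]
        congr 1
        ring
    _ ≤ (1 / 16) ^ g := pow_le_pow_left₀ (by rw [hy]; positivity) h3 g

end Bad

end Pool.Agent.SRN
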