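import Mathlib
import Pool.Agent.SRN.Exp

/-!
# SR with new variables: existence of the hypergraph
-/

namespace Pool.Agent.SRN

open Finset Pool.Agent.SR

section Hyp

variable {V : Type*} [Fintype V] [DecidableEq V] {k : ℕ}

theorem hyp_exists2 [Nonempty V] (c s d θ D M : ℕ) (μ p g g' : ℝ)
    (hD : 4 ≤ D) (hd : d + 2 ≤ θ) (hθ : θ ≤ k + 1) (hcd : 2 * (k + 1) ≤ 2 * c + d) (hs : 2 ≤ s)
    (hMn : Fintype.card V ≤ M)
    (hμ0 : 0 ≤ μ) (hμ1 : μ ≤ 1)
    (hnum : (3 / 2 : ℝ) ^ (k + 1 - θ) * (1 - μ / 3) ^ (k + 1) ≤ μ)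
    (hp : μ + (3 * ((k + 1 : ℕ) : ℝ) / D + 2 * (((k + 1 : ℕ) : ℝ) ^ 2 / Fintype.card V)) ≤ p)
    (hg0 : 0 ≤ g) (hg : g ≤ (1 / D : ℝ) ^ k - ((k + 1 : ℕ) : ℝ) ^ 2 / Fintype.card V)
    (hg' : g' ≤ (1 / D : ℝ) ^ (k + 1) - ((k + 1 : ℕ) : ℝ) ^ 2 / Fintype.card V)
    (h1 : Real.exp (Fintype.card V * Real.exp (-(((2 * M : ℕ) : ℝ) * g / Fintype.card V))) - 1
      ≤ 1 / 8)
    (h2 : 2 ^ Fintype.card V * Real.exp (-g') ^ (2 * M) ≤ 1 / 8)
    (hck : c + 1 ≤ k + 1) (hcs : c * s ≤ Fintype.card V)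
    (h3 : (((2 * M : ℕ) : ℝ) / Fintype.card V) * c * Real.exp (c + 1) *
      (((c * s : ℕ) : ℝ) / Fintype.card V) ^ (k + 1 - c - 1) ≤ 1 / 16)
    (h4 : 2 * (((k + 1 : ℕ) : ℝ) ^ 2 / Fintype.card V) ≤ 1 / 8)
    (h5 : (Fintype.card V : ℝ) ^ Fintype.card V * (2 ^ Fintype.card V * 2 ^ Fintype.card V) *
      (2 * ((1 + p) ^ 2 / 2) ^ M) ≤ 1 / 8) :
    ∃ (ι : Type) (_ : Fintype ι) (_ : DecidableEq ι) (E : ι → Fin (k + 1) → V),
      Props E θ D ∧
      (∀ G : Finset ι, G.card ≤ s → c * G.card ≤ (G.biUnion (edge E)).card) ∧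
      Fintype.card V < Fintype.card ι ∧ Fintype.card ι ≤ 2 * M := by
  classical
  have hM0 : 0 < M := lt_of_lt_of_le Fintype.card_pos hMn
  have hb1 : fr (fun E : Fin (2 * M) → (Fin (k + 1) → V) =>
      ∃ T ∈ (univ : Finset (Finset V)).filter
        (fun T => T.Nonempty ∧ D * T.card ≤ (D - 1) * Fintype.card V),
        ∀ j, ¬ (Function.Injective (E j) ∧ (univ.filter fun i => E j i ∈ T).card = 1)) ≤
      1 / 8 := by
    refine (fr_exists_le _ _).trans (le_trans ?_ h1)
    refine le_trans ?_ (sum_pow_le (Fintype.card V) (Real.exp_pos _).le rfl)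
    refine le_trans (Finset.sum_le_sum fun T hT => ?_)
      (Finset.sum_le_sum_of_subset_of_nonneg (t := univ.filter fun T : Finset V => T.Nonempty)
        ?_ fun T _ _ => by positivity)
    · exact fr_bad_T (by omega) hg0 hg T (Finset.mem_filter.1 hT).2.2
    · intro T hT
      exact Finset.mem_filter.2 ⟨Finset.mem_univ _, (Finset.mem_filter.1 hT).2.1⟩
  have hb2 : fr (fun E : Fin (2 * M) → (Fin (k + 1) → V) =>
      ∃ S ∈ (univ : Finset (Finset V)).filter (fun S => Fintype.card V < D * S.card),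
        ∀ j, ¬ (Function.Injective (E j) ∧ ∀ i, E j i ∈ S)) ≤ 1 / 8 := by
    refine (fr_exists_le _ _).trans (le_trans ?_ h2)
    refine (Finset.sum_le_card_nsmul _ _ (Real.exp (-g') ^ (2 * M)) ?_).trans ?_
    · intro S hS
      exact fr_bad_S (by omega) hg' S (Finset.mem_filter.1 hS).2
    · rw [nsmul_eq_mul]
      refine mul_le_mul_of_nonneg_right ?_ (by positivity)
      have : ((univ : Finset (Finset V)).filter (fun S => Fintype.card V < D * S.card)).card ≤
          2 ^ Fintype.card V := by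
        refine (Finset.card_filter_le _ _).trans ?_
        rw [Finset.card_univ, Fintype.card_finset]
      exact_mod_cast this
  have hb3 : fr (fun E : Fin (2 * M) → (Fin (k + 1) → V) =>
      ∃ J ∈ (univ : Finset (Finset (Fin (2 * M)))).filter (fun J => J.Nonempty ∧ J.card ≤ s),
        (J.biUnion (edge E)).card < c * J.card) ≤ 1 / 8 := by
    refine (fr_exists_le _ _).trans ?_
    refine le_trans (Finset.sum_le_sum fun J hJ => fr_bad_J2 c J
      ((Nat.mul_le_mul_left c (Finset.mem_filter.1 hJ).2.2).trans hcs)) ?_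
    exact sum_J_le (n := 2 * M) (s := s)
      (fun g => (((Fintype.card V).choose (c * g) : ℕ) : ℝ) *
        ((((c * g : ℕ) : ℝ) / Fintype.card V) ^ (k + 1)) ^ g)
      fun g hg1 hgs => term_le Fintype.card_pos hck h3 hg1 hgs
  have hb4 := (fr_few (V := V) (k := k + 1) (m := 2 * M) (by omega)).trans h4
  have hb5 : fr (fun E : Fin (2 * M) → (Fin (k + 1) → V) =>
      ∃ t ∈ (univ : Finset ((V → V) × Finset V × Finset V)).filter
        (fun t => (D - 3) * Fintype.card V < D * t.2.1.card ∧ ∀ v ∈ t.2.1, t.1 v ≠ v),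
        Compat (near d) E ∧ RigFail θ t.1 t.2.1 t.2.2 E) ≤ 1 / 8 := by
    refine (fr_exists_le _ _).trans (le_trans ?_ h5)
    refine (Finset.sum_le_card_nsmul _ _ (2 * ((1 + p) ^ 2 / 2) ^ M) ?_).trans ?_
    · intro t ht
      obtain ⟨ha, hb⟩ := (Finset.mem_filter.1 ht).2
      exact fr_rigFail (by omega) hd hθ hμ0 hμ1 hnum hp t.1 t.2.1 t.2.2 ha hb M
    · rw [nsmul_eq_mul]
      refine mul_le_mul_of_nonneg_right ?_ (by positivity)
      have : ((univ : Finset ((V → V) × Finset V × Finset V)).filter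
        (fun t => (D - 3) * Fintype.card V < D * t.2.1.card ∧ ∀ v ∈ t.2.1, t.1 v ≠ v)).card ≤
          Fintype.card V ^ Fintype.card V * (2 ^ Fintype.card V * 2 ^ Fintype.card V) := by
        refine (Finset.card_filter_le _ _).trans (le_of_eq ?_)
        rw [Finset.card_univ, Fintype.card_prod, Fintype.card_prod, Fintype.card_fun,
          Fintype.card_finset]
      exact_mod_cast this
  obtain ⟨E, hE⟩ := exists_not_of_fr_lt (Ω := Fin (2 * M) → (Fin (k + 1) → V))
    (lt_of_le_of_lt ((fr_or_le _ _).trans (add_le_add hb1 ((fr_or_le _ _).trans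
      (add_le_add hb2 ((fr_or_le _ _).trans (add_le_add hb3 ((fr_or_le _ _).trans
        (add_le_add hb4 hb5)))))))) (by norm_num))
  simp only [not_or] at hE
  obtain ⟨c1, c2, c3, c4, c5⟩ := hE
  have hA : ∀ G : Finset (Fin (2 * M)), G.card ≤ s →
      c * G.card ≤ (G.biUnion (edge E)).card := by
    intro G hG
    rcases G.eq_empty_or_nonempty with rfl | hne
    · simp
    · by_contra hlt
      exact c3 ⟨G, Finset.mem_filter.2 ⟨Finset.mem_univ _, hne, hG⟩, not_le.1 hlt⟩
  have hcompat : Compat (near d) E := by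
    intro j j' hjj
    have hjc : ({j, j'} : Finset (Fin (2 * M))).card = 2 := Finset.card_pair hjj
    have h6 := hA {j, j'} (by rw [hjc]; exact hs)
    rw [hjc, Finset.biUnion_insert, Finset.singleton_biUnion] at h6
    have h7 := Finset.card_union_add_card_inter (edge E j) (edge E j')
    have h8 := edge_card E j
    have h9 := edge_card E j'
    have h10 : (edge E j ∩ edge E j').card ≤ d := by omega
    exact h10
  refine ⟨{j : Fin (2 * M) // Function.Injective (E j)}, inferInstance, inferInstance,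
    fun j => E j.1, ?_, ?_, ?_, ?_⟩
  · refine ⟨fun j => j.2, ?_, ?_, ?_⟩
    · intro T hT hT2
      by_contra hno
      push Not at hno
      refine c1 ⟨T, Finset.mem_filter.2 ⟨Finset.mem_univ _, hT, hT2⟩, fun j hj => ?_⟩
      exact hno ⟨j, hj.1⟩ hj.2
    · intro S hS
      by_contra hno
      refine c2 ⟨S, Finset.mem_filter.2 ⟨Finset.mem_univ _, hS⟩, fun j hj => ?_⟩
      exact hno ⟨⟨j, hj.1⟩, hj.2⟩
    · intro π W Z hW hπ
      by_contra hno
      push Not at hno
      refine c5 ⟨(π, W, Z), Finset.mem_filter.2 ⟨Finset.mem_univ _, hW, hπ⟩, hcompat, ?_⟩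
      intro j hj hjW
      obtain ⟨j', hj1, hj2⟩ := hno ⟨j, hj⟩ hjW
      exact ⟨j'.1, j'.2, hj1, hj2⟩
  · intro G hG
    have h6 := hA (G.map (Function.Embedding.subtype _)) (by rw [Finset.card_map]; exact hG)
    rw [Finset.card_map] at h6
    refine h6.trans (Finset.card_le_card ?_)
    intro v hv
    obtain ⟨j, hj, hv⟩ := Finset.mem_biUnion.1 hv
    obtain ⟨j', hj', rfl⟩ := Finset.mem_map.1 hj
    exact Finset.mem_biUnion.2 ⟨j', hj', hv⟩
  · rw [Fintype.card_subtype]
    have h6 := Finset.card_filter_add_card_filter_not (s := (univ : Finset (Fin (2 * M))))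
      (fun j => Function.Injective (E j))
    rw [Finset.card_univ, Fintype.card_fin] at h6
    omega
  · refine (Fintype.card_subtype_le _).trans ?_
    simp

end Hyp

end Pool.Agent.SRN
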