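import Mathlib
import Pool.Agent.Lib_helper80.SR.Main
import Pool.Agent.SRN.Hyp2

/-!
# SR with new variables: the hypergraph, numerical estimates
-/

namespace Pool.Agent.SRN

open Finset Filter Pool.Agent.SR

theorem nu_exp {t N : ℝ} (hN : 1 ≤ N) (h : N * Real.exp (-t) ≤ 1 / 64) :
    Real.exp (-t) ≤ 1 / 64 := by
  have h2 : 0 < Real.exp (-t) := Real.exp_pos _
  nlinarith

theorem nu_δ {P N K : ℝ} (hP : 0 < P) (hN0 : 0 < N) (h : 2 * K ^ 2 * P ≤ N) :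
    K ^ 2 / N ≤ 1 / P / 2 := by
  rw [div_div, div_le_div_iff₀ (by positivity) (by positivity)]
  nlinarith

theorem nu_h1 {P t N : ℝ} (hP : 0 < P) (ht : 0 < t) (hN : 0 < N)
    (h : N * Real.exp (-t) ≤ 1 / 64) :
    Real.exp (N * Real.exp (-((2 * (P * (t * N))) * (1 / P) / N))) - 1 ≤ 1 / 8 := by
  have h1 : (2 * (P * (t * N))) * (1 / P) / N = 2 * t := by
    field_simp
  rw [h1]
  refine exp_small ?_
  have h2 : Real.exp (-(2 * t)) ≤ Real.exp (-t) := by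
    rw [Real.exp_le_exp]; linarith
  calc N * Real.exp (-(2 * t)) ≤ N * Real.exp (-t) :=
        mul_le_mul_of_nonneg_left h2 hN.le
    _ ≤ 1 / 64 := h
    _ ≤ 1 / 9 := by norm_num

theorem nu_h2 {P t N : ℕ} (hP : 0 < P) (hN : 1 ≤ N) (h : Real.exp (-(t : ℝ)) ≤ 1 / 64) :
    (2 : ℝ) ^ N * Real.exp (-(1 / (P : ℝ) / 2)) ^ (2 * (P * (t * N))) ≤ 1 / 8 := by
  have hPR : (0 : ℝ) < P := by exact_mod_cast hP
  have h1 : Real.exp (-(1 / (P : ℝ) / 2)) ^ (2 * (P * (t * N))) =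
      Real.exp (-(t : ℝ)) ^ N := by
    rw [← Real.exp_nat_mul, ← Real.exp_nat_mul]
    congr 1
    push_cast
    field_simp
  rw [h1, ← mul_pow]
  have h2 : 2 * Real.exp (-(t : ℝ)) ≤ 1 / 32 := by linarith
  have h3 : 0 ≤ 2 * Real.exp (-(t : ℝ)) := by positivity
  calc (2 * Real.exp (-(t : ℝ))) ^ N ≤ (1 / 32) ^ N :=
        pow_le_pow_left₀ h3 h2 _
    _ ≤ (1 / 32) ^ 1 := pow_le_pow_of_le_one (by norm_num) (by norm_num) hN
    _ ≤ 1 / 8 := by norm_num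

theorem nu_h5 {P t N : ℕ} (hP : 200 ≤ P) (hN : 1 ≤ N)
    (h : (N : ℝ) * Real.exp (-(t : ℝ)) ≤ 1 / 64) :
    (N : ℝ) ^ N * (2 ^ N * 2 ^ N) *
      (2 * ((1 + 41 / 100 : ℝ) ^ 2 / 2) ^ (P * (t * N))) ≤ 1 / 8 := by
  have hPR : (200 : ℝ) ≤ P := by exact_mod_cast hP
  have h1 : ((1 + 41 / 100 : ℝ) ^ 2 / 2) ≤ Real.exp (-(1 / 200)) := by
    have := Real.add_one_le_exp (-(1 / 200 : ℝ))
    norm_num at this ⊢
    linarith
  have h2 : ((1 + 41 / 100 : ℝ) ^ 2 / 2) ^ (P * (t * N)) ≤ Real.exp (-(t : ℝ)) ^ N := by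
    refine (pow_le_pow_left₀ (by positivity) h1 _).trans ?_
    rw [← Real.exp_nat_mul, ← Real.exp_nat_mul, Real.exp_le_exp]
    push_cast
    have h4 : (0 : ℝ) ≤ (t : ℝ) * N := by positivity
    nlinarith
  refine (mul_le_mul_of_nonneg_left (mul_le_mul_of_nonneg_left h2 (by norm_num))
    (by positivity)).trans ?_
  have h4 : (N : ℝ) ^ N * (2 ^ N * 2 ^ N) *
      (2 * Real.exp (-(t : ℝ)) ^ N) =
      2 * (4 * ((N : ℝ) * Real.exp (-(t : ℝ)))) ^ N := by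
    rw [mul_pow 4, mul_pow, show (4 : ℝ) = 2 * 2 by norm_num, mul_pow 2 2]
    ring
  rw [h4]
  have h5 : (4 * ((N : ℝ) * Real.exp (-(t : ℝ)))) ^ N ≤ (1 / 16) ^ 1 := by
    refine (pow_le_pow_left₀ (by positivity) (by linarith :
      4 * ((N : ℝ) * Real.exp (-(t : ℝ))) ≤ 1 / 16) _).trans ?_
    exact pow_le_pow_of_le_one (by norm_num) (by norm_num) hN
  linarith

theorem hnum_pow {a : ℕ} (ha : 1 ≤ a) :
    (3 / 2 : ℝ) ^ (61 * a) * (1 - (3 / 8) / 3) ^ (201 * a) ≤ 3 / 8 := by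
  have h1 : (3 / 2 : ℝ) ^ 61 * (1 - (3 / 8) / 3) ^ 201 ≤ 3 / 8 := by norm_num
  rw [pow_mul, pow_mul, ← mul_pow]
  calc ((3 / 2 : ℝ) ^ 61 * (1 - (3 / 8) / 3) ^ 201) ^ a ≤ (3 / 8) ^ a :=
        pow_le_pow_left₀ (by positivity) h1 a
    _ ≤ (3 / 8) ^ 1 := pow_le_pow_of_le_one (by norm_num) (by norm_num) ha
    _ = 3 / 8 := pow_one _

theorem const_ex {a k : ℕ} (ha : 1 ≤ a) (hk : k + 1 = 201 * a) : ∃ D P : ℕ, 4 ≤ D ∧ 30000 ≤ P ∧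
    (3 : ℝ) * ((k + 1 : ℕ) : ℝ) / (D : ℝ) ≤ 2 / 100 ∧ (2 : ℝ) ≤ D ∧
    (1 / (D : ℝ)) ^ (k + 1) = 1 / (P : ℝ) ∧
    (1 / (D : ℝ)) ^ k = (D : ℝ) * (1 / (P : ℝ)) := by
  obtain ⟨D, hD⟩ : ∃ D : ℕ, D = 32768 * a := ⟨_, rfl⟩
  have haR : (1 : ℝ) ≤ a := by exact_mod_cast ha
  have hDR : (D : ℝ) = 32768 * a := by rw [hD]; push_cast; rfl
  have hD0 : (0 : ℝ) < D := by rw [hDR]; positivity
  refine ⟨D, D ^ (k + 1), by omega, ?_, ?_, ?_, ?_, ?_⟩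
  · have : D ≤ D ^ (k + 1) := Nat.le_self_pow (by omega) _
    omega
  · rw [hk, hDR, div_le_div_iff₀ (by positivity) (by norm_num)]
    push_cast
    nlinarith
  · rw [hDR]
    nlinarith
  · rw [one_div_pow]; push_cast; rfl
  · rw [one_div_pow]
    push_cast
    rw [pow_succ (D : ℝ) k]
    field_simp

/-- The hypergraph, with abstract constants. -/
theorem graph_ex (a k D P t N s : ℕ) (ha : 1 ≤ a) (hk : k + 1 = 201 * a)
    (hD4 : 4 ≤ D) (hP15 : 30000 ≤ P)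
    (hDr : (3 : ℝ) * ((k + 1 : ℕ) : ℝ) / (D : ℝ) ≤ 2 / 100) (hD1 : (2 : ℝ) ≤ D)
    (hDP : (1 / (D : ℝ)) ^ (k + 1) = 1 / (P : ℝ))
    (hDP' : (1 / (D : ℝ)) ^ k = (D : ℝ) * (1 / (P : ℝ))) (ht0 : 1 ≤ t) (hN1 : 1 ≤ N)
    (hs2 : 2 ≤ s)
    (hn1 : (N : ℝ) * Real.exp (-(t : ℝ)) ≤ 1 / 64)
    (hn2 : 2 * ((k + 1 : ℕ) : ℝ) ^ 2 * (P : ℝ) ≤ N)
    (hcs : 186 * a * s ≤ N)
    (h3 : (2 * ((P : ℝ) * t)) * ((186 * a : ℕ) : ℝ) * Real.exp (((186 * a : ℕ) : ℝ) + 1) *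
      (((186 * a * s : ℕ) : ℝ) / (N : ℝ)) ^ (15 * a - 1) ≤ 1 / 16) :
    ∃ (ι : Type) (_ : Fintype ι) (_ : DecidableEq ι) (E : ι → Fin (k + 1) → Fin N),
      Props E (140 * a) D ∧
      (∀ G : Finset ι, G.card ≤ s → 186 * a * G.card ≤ (G.biUnion (edge E)).card) ∧
      Fintype.card (Fin N) < Fintype.card ι ∧ Fintype.card ι ≤ 2 * (P * (t * N)) := by
  have hP0 : 0 < P := by omega
  have hPR : (0 : ℝ) < P := by exact_mod_cast hP0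
  have hP15R : (30000 : ℝ) ≤ P := by exact_mod_cast hP15
  have htR : (0 : ℝ) < t := by exact_mod_cast ht0
  have hNR1 : (1 : ℝ) ≤ N := by exact_mod_cast hN1
  have hNR : (0 : ℝ) < N := by linarith
  have hne : Nonempty (Fin N) := ⟨⟨0, by omega⟩⟩
  have hcard : Fintype.card (Fin N) = N := Fintype.card_fin _
  have hM2 : ((2 * (P * (t * N)) : ℕ) : ℝ) = 2 * ((P : ℝ) * ((t : ℝ) * N)) := by push_cast; rfl
  have hδ := nu_δ hPR hNR hn2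
  have hPs : 1 / (P : ℝ) ≤ 1 / 30000 := one_div_le_one_div_of_le (by norm_num) hP15R
  have hPp : 0 < 1 / (P : ℝ) := by positivity
  have h1' := nu_h1 hPR htR hNR hn1
  have h2' := nu_h2 hP0 hN1 (nu_exp hNR1 hn1)
  have h5' := nu_h5 (P := P) (by omega) hN1 hn1
  have hnum : (3 / 2 : ℝ) ^ (k + 1 - 140 * a) * (1 - (3 / 8) / 3) ^ (k + 1) ≤ 3 / 8 := by
    have e1 : k + 1 - 140 * a = 61 * a := by omega
    rw [e1, hk]
    exact hnum_pow ha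
  have hMn : Fintype.card (Fin N) ≤ P * (t * N) := by
    rw [hcard]
    calc N = 1 * (1 * N) := by ring
      _ ≤ P * (t * N) := Nat.mul_le_mul hP0 (Nat.mul_le_mul ht0 le_rfl)
  refine hyp_exists2 (V := Fin N) (k := k)
    (186 * a) s (30 * a) (140 * a) D (P * (t * N)) (3 / 8) (41 / 100) (1 / P)
    (1 / P / 2) hD4 (by omega) (by omega) (by omega) hs2 hMn
    (by norm_num) (by norm_num) hnum ?_ hPp.le ?_ ?_ ?_ ?_ ?_ ?_ ?_ ?_ ?_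
  · rw [hcard]; linarith
  · rw [hcard, hDP']; nlinarith
  · rw [hcard, hDP]; linarith
  · rw [hcard, hM2]; exact h1'
  · rw [hcard]; exact h2'
  · omega
  · rw [hcard]; exact hcs
  · rw [hcard, hM2]
    have e1 : k + 1 - 186 * a - 1 = 15 * a - 1 := by omega
    rw [e1]
    have e2 : 2 * ((P : ℝ) * ((t : ℝ) * N)) / (N : ℝ) = 2 * ((P : ℝ) * t) := by
      field_simp
    rw [e2]
    exact h3
  · rw [hcard]; linarith
  · rw [hcard]; exact h5'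

end Pool.Agent.SRN
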