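import Mathlib
import Pool.Agent.Lib_helper80.SR.Defs

/-!
# SR with new variables: definitions

The CNF `F` has the variables `X`.  There are two kinds of new variables: the variables in `Z`, which
have no definition, and the variables in `Y`, which may be used once they have been defined.  Literals,
clauses, reverse unit propagation and substitution redundancy are those of
`Pool/Agent/Lib_helper80/SR/Defs.lean`, for the set of variables `X ⊕ (Y ⊕ Z)`.
-/

namespace Pool.Agent.SRN

open Pool.Agent.SR

/-- The clauses `Γ` and the unit literals `U` are refuted by unit propagation, or at most `r` of the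
clauses in `Γ` and the literals in `U` have no common satisfying assignment. -/
def Conf {W : Type*} (r : ℕ) (Γ : CNF W) (U : Finset (Lit W)) : Prop :=
  Conflict Γ U ∨ ∃ R ⊆ Γ, R.card ≤ r ∧
    ∀ a : W → Bool, (∀ l ∈ U, a l.1 = l.2) → ∃ D ∈ R, ¬ Sat a D

/-- `C` follows from `Γ` by reverse unit propagation or from at most `r` clauses in `Γ` by any sound
reasoning. -/
def RUPr {W : Type*} [DecidableEq W] (r : ℕ) (Γ : CNF W) (C : Clause W) : Prop :=
  Conf r Γ (negs C)

/-- `C` is substitution redundant with respect to `Γ`, where instead of unit propagation also any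
sound reasoning from at most `r` clauses in `Γ` may be used: there is a substitution `ω` satisfying
`C` such that for every clause `D` of `Γ` not satisfied by `ω` the clauses `Γ`, the negation of `C`
and the negation of the image of `D` under `ω` are refuted in the sense of `Conf`. -/
def SRedr {W : Type*} [DecidableEq W] (r : ℕ) (Γ : CNF W) (C : Clause W) : Prop :=
  ∃ ω : Subst W, SSat ω C ∧
    ∀ D ∈ Γ, SSat ω D ∨ Conf r Γ (negs C ∪ negs (simage ω D))

/-- The CNF `F` over the variables `X`, read as a CNF over the variables `X ⊕ T`. -/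
def up {X : Type*} (T : Type*) [DecidableEq X] [DecidableEq T] (F : CNF X) : CNF (X ⊕ T) :=
  F.image fun C => C.image fun l => (Sum.inl l.1, l.2)

/-- All variables in `Y` which occur in the clause `C` belong to `U`. -/
def Over {X Y Z : Type*} (U : Finset Y) (C : Clause (X ⊕ (Y ⊕ Z))) : Prop :=
  ∀ y b, (Sum.inr (Sum.inl y), b) ∈ C → y ∈ U

/-- The clauses in `B` define the variable `y`: for all values of the other variables exactly one
value of `y` satisfies all clauses in `B`. -/
def Dfn {X Y Z : Type*} [DecidableEq X] [DecidableEq Y] [DecidableEq Z] (y : Y)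
    (B : CNF (X ⊕ (Y ⊕ Z))) : Prop :=
  ∀ a : X ⊕ (Y ⊕ Z) → Bool,
    ∃! b : Bool, ∀ C ∈ B, Sat (Function.update a (Sum.inr (Sum.inl y)) b) C

open Classical in
/-- The variables of the CNF `F` which occur in the set of clauses `A`. -/
noncomputable def occ {X T : Type*} [Fintype X] (A : CNF (X ⊕ T)) : Finset X :=
  Finset.univ.filter fun v => ∃ C ∈ A, ∃ b, (Sum.inl v, b) ∈ C

/-- `DerivesN F m r L Γ δ U`: starting from the CNF `F` one can reach the set of clauses `Γ`, where
`L` is the list of all learned clauses, `U` is the set of the variables in `Y` which are at present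
defined, and `δ y` is the set of clauses which define the variable `y` in `U`.

A learned clause is, at the moment it is added, a reverse unit propagation consequence of the
current set of clauses or substitution redundant with respect to it (`rup`, `sr`), where instead of
unit propagation also any sound reasoning from at most `r` clauses may be used; it may contain
variables of `F`, variables in `Z` and the variables in `Y` which are defined.

At any time a variable `y` in `Y` which is not defined may be defined (`ext`): one adds a set `B` of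
clauses, all containing `y`, which define `y` in terms of the variables of `F`, the variables in `Z`
and the variables in `Y` which are defined, provided that at most `m` variables of `F` occur in all
definitions which are then present.  Definitions are not counted in `L`.

At any time learned clauses may be deleted, and also the definitions of the variables in `U` outside
`U'`, if these variables do not occur in the remaining clauses (`del`). -/
inductive DerivesN {X Y Z : Type*} [Fintype X] [DecidableEq X] [DecidableEq Y] [DecidableEq Z]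
    (F : CNF X) (m r : ℕ) : List (Clause (X ⊕ (Y ⊕ Z))) → CNF (X ⊕ (Y ⊕ Z)) →
      (Y → CNF (X ⊕ (Y ⊕ Z))) → Finset Y → Prop
  | start : DerivesN F m r [] (up (Y ⊕ Z) F) (fun _ => ∅) ∅
  | rup {L : List (Clause (X ⊕ (Y ⊕ Z)))} {Γ : CNF (X ⊕ (Y ⊕ Z))}
      {δ : Y → CNF (X ⊕ (Y ⊕ Z))} {U : Finset Y} {C : Clause (X ⊕ (Y ⊕ Z))} :
      DerivesN F m r L Γ δ U → Over U C → RUPr r Γ C → DerivesN F m r (C :: L) (insert C Γ) δ U
  | sr {L : List (Clause (X ⊕ (Y ⊕ Z)))} {Γ : CNF (X ⊕ (Y ⊕ Z))}
      {δ : Y → CNF (X ⊕ (Y ⊕ Z))} {U : Finset Y} {C : Clause (X ⊕ (Y ⊕ Z))} :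
      DerivesN F m r L Γ δ U → Over U C → SRedr r Γ C → DerivesN F m r (C :: L) (insert C Γ) δ U
  | ext {L : List (Clause (X ⊕ (Y ⊕ Z)))} {Γ B : CNF (X ⊕ (Y ⊕ Z))}
      {δ : Y → CNF (X ⊕ (Y ⊕ Z))} {U : Finset Y} {y : Y} :
      DerivesN F m r L Γ δ U → y ∉ U → (∀ C ∈ B, Over (insert y U) C) →
      (∀ C ∈ B, ∃ b, (Sum.inr (Sum.inl y), b) ∈ C) → Dfn y B →
      (occ (U.biUnion δ ∪ B)).card ≤ m →
      DerivesN F m r L (Γ ∪ B) (Function.update δ y B) (insert y U)
  | del {L : List (Clause (X ⊕ (Y ⊕ Z)))} {Γ Δ : CNF (X ⊕ (Y ⊕ Z))}
      {δ : Y → CNF (X ⊕ (Y ⊕ Z))} {U U' : Finset Y} :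
      DerivesN F m r L Γ δ U → U' ⊆ U → up (Y ⊕ Z) F ∪ U'.biUnion δ ⊆ Δ → Δ ⊆ Γ →
      (∀ C ∈ Δ, Over U' C) → DerivesN F m r L Δ δ U'

end Pool.Agent.SRN
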