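import Mathlib
import Pool.Agent.Lib_helper80.SR.Loc

/-!
# SR with few new variables: substitutions that preserve the constraints on a small region

`Reg` is a predicate of the assignments which depends on few variables.  If a substitution maps the
assignments in `Reg` (locally) to solutions of all parity constraints, then it fixes (locally) every
variable on `Reg`.
-/

namespace Pool.Agent.SRN

open Finset Pool.Agent.SR

section Reg

variable {V ι : Type*} [Fintype V] [DecidableEq V] [Fintype ι] [DecidableEq ι] {k : ℕ}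
variable {E : ι → Fin k → V} {β : ι → ZMod 2} {ρ : V → Option Bool} {s w θ D : ℕ}

/-- The support used for statements about the edge `j`. -/
def rset (E : ι → Fin k → V) (ω : Subst V) (Y : Finset V) (j : ι) : Finset V :=
  Y ∪ (edge E j ∪ (edge E j).image (tgt ω))

omit [Fintype V] [Fintype ι] [DecidableEq ι] in
theorem rset_card (ω : Subst V) {Y : Finset V} (hY : Y.card ≤ w) (j : ι) :
    (rset E ω Y j).card ≤ w + 2 * k := by
  unfold rset
  have h1 := Finset.card_union_le Y (edge E j ∪ (edge E j).image (tgt ω))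
  have h2 := Finset.card_union_le (edge E j) ((edge E j).image (tgt ω))
  have h3 := edge_card E j
  have h4 : ((edge E j).image (tgt ω)).card ≤ (edge E j).card := Finset.card_image_le
  omega

/-- No edge contains exactly one of the variables moved by the substitution. -/
theorem reg_moved (hE : Expand E ρ s) (hs : 4 * w + 4 * k ≤ s) (hk1 : 1 ≤ k)
    {Y : Finset V} (hY : Y.card ≤ w) {Reg : (V → Bool) → Prop} (hReg : Supp Y Reg) {ω : Subst V}
    (hstep : ∀ j, Loc E β ρ s fun x => Reg x → EqAt E β j (sub ω x))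
    {T : Finset V} (hT : ∀ v, v ∈ T ↔ ¬ Loc E β ρ s fun x => Reg x → sub ω x v = x v)
    (j : ι) : (univ.filter fun i => E j i ∈ T).card ≠ 1 := by
  classical
  intro hj
  have hYc : 2 * (rset E ω Y j).card ≤ s := by
    have := rset_card (E := E) ω hY j
    omega
  have hA : Supp (rset E ω Y j) Reg := hReg.mono Finset.subset_union_left
  obtain ⟨i₀, hi₀⟩ := Finset.card_eq_one.1 hj
  have hmem : E j i₀ ∈ T := by
    have : i₀ ∈ univ.filter fun i => E j i ∈ T := by rw [hi₀]; simp
    simpa using this
  have hother : ∀ i, i ≠ i₀ → E j i ∉ T := by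
    intro i hi hiT
    have : i ∈ univ.filter fun i => E j i ∈ T := by simpa using hiT
    rw [hi₀, Finset.mem_singleton] at this
    exact hi this
  have hfs : ∀ i, Supp (rset E ω Y j) fun x => sub ω x (E j i) = x (E j i) := by
    intro i x x' hx hh
    have h1 : tgt ω (E j i) ∈ rset E ω Y j :=
      Finset.mem_union_right _ (Finset.mem_union_right _
        (Finset.mem_image_of_mem _ (mem_edge E j i)))
    have h2 : E j i ∈ rset E ω Y j :=
      Finset.mem_union_right _ (Finset.mem_union_left _ (mem_edge E j i))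
    rw [← sub_congr (hx _ h1), ← hx _ h2]
    exact hh
  have h1 : Loc E β ρ s fun x => ∀ i ∈ univ.erase i₀, Reg x → sub ω x (E j i) = x (E j i) := by
    refine Loc.all hE hYc (univ.erase i₀) (fun i x => Reg x → sub ω x (E j i) = x (E j i))
      (fun i _ => hA.imp (hfs i)) ?_
    intro i hi
    have := hother i (Finset.ne_of_mem_erase hi)
    rw [hT, not_not] at this
    exact this
  have hs1 : Supp (rset E ω Y j) fun x => ∀ i ∈ univ.erase i₀, Reg x →
      sub ω x (E j i) = x (E j i) := by
    intro x x' hx hh i hi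
    exact (hA.imp (hfs i)) x x' hx (hh i hi)
  have h2 : Loc E β ρ s fun x => EqAt E β j x := by
    refine ⟨{j}, ?_, fun x _ hx => hx j (Finset.mem_singleton_self j)⟩
    rw [Finset.card_singleton]
    omega
  have hs2 : Supp (rset E ω Y j) fun x => EqAt E β j x :=
    (supp_eqAt' j).mono (Finset.subset_union_left.trans Finset.subset_union_right)
  have hs3 : Supp (rset E ω Y j) fun x => Reg x → EqAt E β j (sub ω x) :=
    hA.imp ((supp_eqAt ω j).mono (Finset.subset_union_right.trans Finset.subset_union_right))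
  have h3 := h2.and hE hYc hs2 hs3 (hstep j)
  have h4 := h3.and hE hYc (hs2.and hs3) hs1 h1
  rw [hT] at hmem
  apply hmem
  refine h4.mono ?_
  intro x _ hx hsC
  refine par_inj E j i₀ (x := sub ω x) (y := x) ?_ ?_
  · have a1 := hx.1.1
    have a2 := hx.1.2 hsC
    unfold EqAt at a1 a2
    rw [a1, a2]
  · intro i hi
    exact hx.2 i (Finset.mem_erase.2 ⟨hi, Finset.mem_univ _⟩) hsC

/-- **The rigidity of the constraints on a small region.** -/
theorem reg_fixed (hSE : ∀ G : Finset ι, G.card ≤ s → (θ + 1) * G.card ≤ (once E ρ G).card)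
    (hprop : Props E θ D) (hD : 4 ≤ D) (hkθ : k ≤ 2 * θ) (hodd : Odd k) (hθ1 : 1 ≤ θ)
    (hs : 4 * w + 4 * k ≤ s)
    (hF : ∀ x : V → Bool, ∃ j, ¬ EqAt E β j x)
    {Y : Finset V} (hY : Y.card ≤ w) {Reg : (V → Bool) → Prop} (hReg : Supp Y Reg) {ω : Subst V}
    (hstep : ∀ j, Loc E β ρ s fun x => Reg x → EqAt E β j (sub ω x)) (v₁ : V) :
    Loc E β ρ s fun x => Reg x → sub ω x v₁ = x v₁ := by
  classical
  by_contra hv₁
  have hn : ¬ Loc E β ρ s fun x => ¬ Reg x := fun h =>
    hv₁ (h.mono fun x _ hx hr => absurd hr hx)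
  have hk1 : 1 ≤ k := Odd.pos hodd
  have hE : Expand E ρ s := by
    intro G hG
    refine le_trans ?_ (hSE G hG)
    have : (θ + 1) * G.card = θ * G.card + G.card := by ring
    omega
  -- the moved variables
  set T : Finset V := univ.filter fun v =>
    ¬ Loc E β ρ s fun x => Reg x → sub ω x v = x v with hTdef
  have hT : ∀ v, v ∈ T ↔ ¬ Loc E β ρ s fun x => Reg x → sub ω x v = x v := by
    intro v; rw [hTdef]; simp
  have hTne : T.Nonempty := ⟨v₁, (hT v₁).2 hv₁⟩
  have hTbig : (D - 1) * Fintype.card V < D * T.card := by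
    by_contra hle
    obtain ⟨j, hj⟩ := hprop.uniq T hTne (not_lt.1 hle)
    exact reg_moved hE hs hk1 hY hReg hstep hT j hj
  -- closure of the support
  obtain ⟨G₀, hG₀w, hG₀⟩ := closure_exists hSE Y hY (by omega)
  set V₀ := Y ∪ G₀.biUnion (edge E) with hV₀
  have hx₀ : ∃ x₀, Agree ρ x₀ ∧ (∀ j ∈ G₀, EqAt E β j x₀) ∧ Reg x₀ := by
    by_contra hno
    push Not at hno
    exact hn ⟨G₀, by omega, fun x hx hj => hno x hx hj⟩
  obtain ⟨x₀, hx₀ρ, hx₀G, hx₀C⟩ := hx₀
  set ρ' : V → Option Bool := fun v => if v ∈ V₀ then some (x₀ v) else ρ v with hρ'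
  have hagr : ∀ x, Agree ρ' x → Agree ρ x := by
    intro x hx v b hv
    by_cases hm : v ∈ V₀
    · rw [hx v (x₀ v) (by rw [hρ']; simp only; rw [if_pos hm])]
      exact hx₀ρ v b hv
    · exact hx v b (by rw [hρ']; simp only; rw [if_neg hm]; exact hv)
  have hon : ∀ x, Agree ρ' x → ∀ v ∈ V₀, x v = x₀ v := by
    intro x hx v hv
    exact hx v (x₀ v) (by rw [hρ']; simp only; rw [if_pos hv])
  have hx₀' : Agree ρ' x₀ := by
    intro v b hv
    rw [hρ'] at hv
    simp only at hv
    split_ifs at hv with hm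
    · exact Option.some.inj hv
    · exact hx₀ρ v b hv
  have hnC : ∀ x, Agree ρ' x → Reg x := by
    intro x hx
    refine hReg x₀ x ?_ hx₀C
    intro v hv
    exact (hon x hx v (Finset.mem_union_left _ hv)).symm
  have hG₀' : ∀ x, Agree ρ' x → ∀ j ∈ G₀, EqAt E β j x := by
    intro x hx j hj
    refine supp_eqAt' j x₀ x ?_ (hx₀G j hj)
    intro v hv
    exact (hon x hx v (Finset.mem_union_right _ (Finset.mem_biUnion.2 ⟨j, hj, hv⟩))).symm
  have hSE' : ∀ G : Finset ι, G.Nonempty → Disjoint G G₀ → G.card ≤ w + 2 * k + 1 →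
      θ * G.card < (once E ρ' G).card := by
    intro G hGne hGd hGs
    refine lt_of_lt_of_le (hG₀ G hGne hGd (by omega)) (Finset.card_le_card ?_)
    intro v hv
    rw [Finset.mem_sdiff, once, Finset.mem_filter] at hv
    rw [once, Finset.mem_filter]
    refine ⟨Finset.mem_univ _, ?_, hv.1.2.2⟩
    rw [hρ']
    simp only
    rw [if_neg hv.2]
    exact hv.1.2.1
  have hex' : ∃ x, Agree ρ' x := ⟨x₀, hx₀'⟩
  -- the substituted constraints are local consequences of `ρ'`
  have hloc' : ∀ j, ∃ G : Finset ι, G.card ≤ w + 2 * k ∧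
      ∀ x, Agree ρ' x → (∀ j ∈ G, EqAt E β j x) → EqAt E β j (sub ω x) := by
    intro j
    have hsupp : Supp (rset E ω Y j) fun x => Reg x → EqAt E β j (sub ω x) :=
      (hReg.mono Finset.subset_union_left).imp
        ((supp_eqAt ω j).mono (Finset.subset_union_right.trans Finset.subset_union_right))
    obtain ⟨G, hGc, hG⟩ := (hstep j).min hE hsupp
    exact ⟨G, hGc.trans (rset_card ω hY j), fun x hx hj => hG x (hagr x hx) hj (hnC x hx)⟩
  -- variables whose value is not fixed by `ρ'`
  set R : Finset V := univ.filter fun v => ∃ l, ω v = Sum.inr l ∧ ρ' l.1 = none with hR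
  have hRmem : ∀ v, v ∈ R ↔ ∃ l, ω v = Sum.inr l ∧ ρ' l.1 = none := by
    intro v; rw [hR]; simp
  have hRnot : ∀ v, v ∉ R → ∀ x, Agree ρ' x → sub ω x v = sub ω x₀ v := by
    intro v hv x hx
    cases hωv : ω v with
    | inl b => rw [sub_inl hωv, sub_inl hωv]
    | inr l =>
      refine sub_congr ?_
      rw [tgt_inr hωv]
      cases hρl : ρ' l.1 with
      | none => exact absurd ((hRmem v).2 ⟨l, hωv, hρl⟩) hv
      | some b => rw [hx _ _ hρl, hx₀' _ _ hρl]
  have hRtgt : ∀ v ∈ R, ρ' (tgt ω v) = none := by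
    intro v hv
    obtain ⟨l, hl, hl'⟩ := (hRmem v).1 hv
    rw [tgt_inr hl]
    exact hl'
  -- parity of the substituted assignment on an edge
  have hpar : ∀ j, ∃ K : ZMod 2, ∀ x, Agree ρ' x → par E j (sub ω x) =
      ∑ i ∈ univ.filter (fun i => E j i ∈ R), (if x (tgt ω (E j i)) then (1 : ZMod 2) else 0) +
        K := by
    intro j
    refine ⟨∑ i ∈ univ.filter (fun i => E j i ∈ R), ((if sub ω x₀ (E j i) then (1 : ZMod 2) else 0)
      - (if x₀ (tgt ω (E j i)) then (1 : ZMod 2) else 0)) +
      ∑ i ∈ univ.filter (fun i => ¬ E j i ∈ R), (if sub ω x₀ (E j i) then (1 : ZMod 2) else 0), ?_⟩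
    intro x hx
    unfold par
    rw [← Finset.sum_filter_add_sum_filter_not univ (fun i => E j i ∈ R), ← add_assoc,
      ← Finset.sum_add_distrib]
    congr 1
    · refine Finset.sum_congr rfl fun i hi => ?_
      obtain ⟨l, hl, -⟩ := (hRmem _).1 (Finset.mem_filter.1 hi).2
      rw [sub_inr hl, sub_inr hl, tgt_inr hl]
      have key : ∀ a b c : Bool, (if (a == c) = true then (1 : ZMod 2) else 0) =
          (if a = true then (1 : ZMod 2) else 0) +
            ((if (b == c) = true then (1 : ZMod 2) else 0) - (if b = true then 1 else 0)) := by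
        decide
      exact key _ _ _
    · refine Finset.sum_congr rfl fun i hi => ?_
      rw [hRnot _ (Finset.mem_filter.1 hi).2 x hx]
  have hrigid : ∀ j, (oddOn (univ.filter fun i => E j i ∈ R) fun i => tgt ω (E j i)).Nonempty →
      ∃ j', θ < (edge E j' \ dom ρ').card ∧
        (oddOn (univ.filter fun i => E j i ∈ R) fun i => tgt ω (E j i)) =
          edge E j' \ dom ρ' := by
    intro j hne
    obtain ⟨K, hK⟩ := hpar j
    obtain ⟨G, hGc, hG⟩ := hloc' j
    refine rigid (b := β j - K) hG₀' hex' hSE' hprop.inj hkθ hne ?_ ?_ ?_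
    · refine (oddOn_card_le _ _).trans ((Finset.card_filter_le _ _).trans ?_)
      simp
    · intro u hu
      obtain ⟨i, hi, rfl⟩ := mem_oddOn hu
      exact hRtgt _ (Finset.mem_filter.1 hi).2
    · refine ⟨G, by omega, fun x hx hj => ?_⟩
      beta_reduce
      rw [← sum_oddOn _ (fun i => tgt ω (E j i)) x]
      have h1 := hG x hx hj
      unfold EqAt at h1
      rw [hK x hx] at h1
      rw [← h1]
      ring
  -- either the substituted assignment is constant, or almost nothing is
  have hRne : R.Nonempty := by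
    rw [Finset.nonempty_iff_ne_empty]
    intro hRe
    obtain ⟨j, hj⟩ := hF (sub ω x₀)
    obtain ⟨G, hGc, hG⟩ := hloc' j
    obtain ⟨x, hx1, hx2⟩ := consistent hG₀' hex' hSE' G (by omega)
    apply hj
    have h1 := hG x hx1 hx2
    unfold EqAt par at h1 ⊢
    rw [← h1]
    refine Finset.sum_congr rfl fun i _ => ?_
    rw [hRnot (E j i) (by rw [hRe]; exact Finset.notMem_empty _) x hx1]
  have hRbig : (D - 1) * Fintype.card V < D * R.card := by
    by_contra hle
    obtain ⟨j, hj⟩ := hprop.uniq R hRne (not_lt.1 hle)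
    obtain ⟨i₀, hi₀⟩ := Finset.card_eq_one.1 hj
    have hodd1 : (oddOn (univ.filter fun i => E j i ∈ R) fun i => tgt ω (E j i)) =
        {tgt ω (E j i₀)} := by
      rw [hi₀]
      ext u
      unfold oddOn
      simp only [Finset.mem_filter, Finset.mem_univ, true_and, Finset.mem_singleton]
      by_cases hu : tgt ω (E j i₀) = u
      · rw [Finset.filter_true_of_mem (fun i hi => by rw [Finset.mem_singleton.1 hi]; exact hu)]
        simp [hu]
      · rw [Finset.filter_false_of_mem (fun i hi => by rw [Finset.mem_singleton.1 hi]; exact hu)]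
        simp [Ne.symm hu]
    obtain ⟨j', hj1, hj2⟩ := hrigid j (by rw [hodd1]; exact Finset.singleton_nonempty _)
    rw [← hj2, hodd1, Finset.card_singleton] at hj1
    omega
  -- variables mapped to their negation
  set S : Finset V := univ.filter fun v => v ∈ T ∧ v ∈ R ∧ tgt ω v = v with hS
  have hSneg : ∀ v ∈ S, ∀ x, sub ω x v = !x v := by
    intro v hv x
    rw [hS, Finset.mem_filter] at hv
    obtain ⟨-, hvT, hvR, hvt⟩ := hv
    obtain ⟨l, hl, -⟩ := (hRmem v).1 hvR
    rw [tgt_inr hl] at hvt
    cases hl2 : l.2 with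
    | false =>
      rw [sub_inr hl, hl2, hvt]
      cases x v <;> rfl
    | true =>
      exfalso
      apply (hT v).1 hvT
      refine Loc.triv fun x _ _ => ?_
      rw [sub_inr hl, hl2, hvt]
      cases x v <;> rfl
  have hSsmall : D * S.card ≤ Fintype.card V := by
    by_contra hlt
    obtain ⟨j, hj⟩ := hprop.inside S (not_le.1 hlt)
    obtain ⟨G, hGc, hG⟩ := hloc' j
    obtain ⟨x, hx1, hx2⟩ := consistent hG₀' hex' hSE' (insert j G)
      ((Finset.card_insert_le _ _).trans (by omega))
    have h1 := hG x hx1 fun j' hj' => hx2 j' (Finset.mem_insert_of_mem hj')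
    have h2 := hx2 j (Finset.mem_insert_self _ _)
    unfold EqAt par at h1 h2
    have h3 : ∑ i, (if sub ω x (E j i) then (1 : ZMod 2) else 0) =
        ∑ i, (if x (E j i) then (1 : ZMod 2) else 0) + (k : ZMod 2) := by
      have : (k : ZMod 2) = ∑ _i : Fin k, (1 : ZMod 2) := by simp
      rw [this, ← Finset.sum_add_distrib]
      refine Finset.sum_congr rfl fun i _ => ?_
      rw [hSneg _ (hj i)]
      cases x (E j i) <;> decide
    rw [h1, h2, (ZMod.natCast_eq_one_iff_odd).2 hodd] at h3
    have key : ∀ c : ZMod 2, ¬ c = c + 1 := by decide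
    exact key _ h3
  -- variables moved to another variable
  set W : Finset V := (T ∩ R) \ S with hW
  have hWbig : (D - 3) * Fintype.card V < D * W.card := by
    have h1 : (T ∩ R).card + (T ∪ R).card = T.card + R.card := Finset.card_inter_add_card_union T R
    have h2 : (T ∪ R).card ≤ Fintype.card V := Finset.card_le_univ _
    have h3 : (T ∩ R).card ≤ W.card + S.card := by
      have := Finset.card_le_card_sdiff_add_card (s := T ∩ R) (t := S)
      omega
    obtain ⟨D', rfl⟩ : ∃ D', D = D' + 4 := ⟨D - 4, by omega⟩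
    have e1 : D' + 4 - 1 = D' + 3 := by omega
    have e2 : D' + 4 - 3 = D' + 1 := by omega
    rw [e1] at hTbig hRbig
    rw [e2]
    have h4 := Nat.mul_le_mul_left (D' + 4) h3
    have h5 := Nat.mul_le_mul_left (D' + 4) h2
    have h6 : (D' + 4) * (T ∩ R).card + (D' + 4) * (T ∪ R).card =
        (D' + 4) * T.card + (D' + 4) * R.card := by
      rw [← Nat.mul_add, h1, Nat.mul_add]
    nlinarith
  obtain ⟨j, hj1, hj2⟩ := hprop.rig (tgt ω) W (dom ρ') hWbig (by
    intro v hv hvt
    rw [hW, Finset.mem_sdiff, Finset.mem_inter] at hv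
    apply hv.2
    rw [hS, Finset.mem_filter]
    exact ⟨Finset.mem_univ _, hv.1.1, hv.1.2, hvt⟩)
  have hall : (univ.filter fun i => E j i ∈ R) = univ := by
    refine Finset.filter_true_of_mem fun i _ => ?_
    have := hj1 i
    rw [hW, Finset.mem_sdiff, Finset.mem_inter] at this
    exact this.1.2
  have hne : (oddOn (univ.filter fun i => E j i ∈ R) fun i => tgt ω (E j i)).Nonempty := by
    rw [Finset.nonempty_iff_ne_empty]
    intro he
    have h1 := sum_oddOn (univ : Finset (Fin k)) (fun i => tgt ω (E j i)) (fun _ => true)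
    rw [hall] at he
    rw [he] at h1
    simp only [if_true, Finset.sum_const, Finset.card_univ, Fintype.card_fin, nsmul_eq_mul,
      mul_one, Finset.card_empty, Nat.cast_zero] at h1
    rw [(ZMod.natCast_eq_one_iff_odd).2 hodd] at h1
    exact absurd h1 (by decide)
  obtain ⟨j', h1, h2⟩ := hrigid j hne
  rw [hall] at h2
  exact hj2 j' h1 h2

end Reg

end Pool.Agent.SRN
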