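import Mathlib
import Pool.Agent.SRN.Defs
import Pool.Agent.SRN.Reg

/-!
# SR with new variables: one world of the new variables

For fixed values `z` of the free new variables and for the values `φ z x` of the defined variables a
clause is a predicate of `x`.  Unit propagation in such a world.
-/

namespace Pool.Agent.SRN

open Finset Pool.Agent.SR

section World

variable {V Y Z ι : Type*} [Fintype V] [DecidableEq V] [DecidableEq Y] [DecidableEq Z]
  [DecidableEq ι] {k : ℕ}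
variable {E : ι → Fin k → V} {β : ι → ZMod 2} {ρ : V → Option Bool} {s w r : ℕ}

/-- The assignment of all variables. -/
def ev (φ : (Z → Bool) → (V → Bool) → Y → Bool) (z : Z → Bool) (x : V → Bool) :
    V ⊕ (Y ⊕ Z) → Bool :=
  Sum.elim x (Sum.elim (φ z x) z)

open Classical in
/-- The variables in `V` of a set of literals. -/
noncomputable def xv (C : Finset (Lit (V ⊕ (Y ⊕ Z)))) : Finset V :=
  univ.filter fun v => ∃ b, (Sum.inl v, b) ∈ C

/-- The partial assignment `ρ` satisfies the clause. -/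
def TS (ρ : V → Option Bool) (C : Clause (V ⊕ (Y ⊕ Z))) : Prop :=
  ∃ v b, (Sum.inl v, b) ∈ C ∧ ρ v = some b

/-- The values of the defined variables depend only on `J` and on `z`. -/
def Dep (φ : (Z → Bool) → (V → Bool) → Y → Bool) (J : Finset V) : Prop :=
  ∀ z x x', (∀ v ∈ J, x v = x' v) → φ z x = φ z x'

theorem mem_xv {C : Finset (Lit (V ⊕ (Y ⊕ Z)))} {v : V} :
    v ∈ xv C ↔ ∃ b, (Sum.inl v, b) ∈ C := by
  unfold xv
  simp

theorem ev_congr {φ : (Z → Bool) → (V → Bool) → Y → Bool} {J : Finset V}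
    (hφ : Dep φ J) (z : Z → Bool) {x x' : V → Bool}
    (hJ : ∀ v ∈ J, x v = x' v) (u : V ⊕ (Y ⊕ Z))
    (hu : ∀ v, u = Sum.inl v → x v = x' v) : ev φ z x u = ev φ z x' u := by
  rcases u with v | (y | z')
  · exact hu v rfl
  · show φ z x y = φ z x' y
    rw [hφ z x x' hJ]
  · rfl

theorem supp_lit {φ : (Z → Bool) → (V → Bool) → Y → Bool} {J S : Finset V}
    (hφ : Dep φ J) (hJ : J ⊆ S) (z : Z → Bool)
    {C : Finset (Lit (V ⊕ (Y ⊕ Z)))} (hC : xv C ⊆ S) {l : Lit (V ⊕ (Y ⊕ Z))} (hl : l ∈ C)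
    (P : Bool → Prop) : Supp S fun x => P (ev φ z x l.1) := by
  intro x x' hx h
  rw [← ev_congr hφ z (fun v hv => hx v (hJ hv)) l.1 ?_]
  · exact h
  · intro v hv
    refine hx v (hC (mem_xv.2 ⟨l.2, ?_⟩))
    rw [← hv]
    exact hl

theorem supp_sat' {φ : (Z → Bool) → (V → Bool) → Y → Bool} {J S : Finset V}
    (hφ : Dep φ J) (hJ : J ⊆ S) (z : Z → Bool)
    {C : Clause (V ⊕ (Y ⊕ Z))} (hC : xv C ⊆ S) :
    Supp S fun x => Sat (ev φ z x) C := by
  rintro x x' hx ⟨l, hl, h⟩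
  exact ⟨l, hl, supp_lit hφ hJ z hC hl (fun b => b = l.2) x x' hx h⟩

/-- The data of a world: the clauses of `Γ` hold locally if `H` holds. -/
structure Wld (E : ι → Fin k → V) (β : ι → ZMod 2) (ρ : V → Option Bool) (s w r : ℕ)
    (φ : (Z → Bool) → (V → Bool) → Y → Bool) (J : Finset V) (z : Z → Bool)
    (Γ : CNF (V ⊕ (Y ⊕ Z))) (H : (V → Bool) → Prop) (S : Finset V) : Prop where
  exp : Expand E ρ s
  hφ : Dep φ J
  hJ : J ⊆ S
  hH : Supp S H
  hw1 : 1 ≤ w
  hs : 2 * (S.card + (r * w + w)) ≤ s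
  nar : ∀ C ∈ Γ, TS ρ C ∨ (xv C \ J).card ≤ w
  loc : ∀ C ∈ Γ, Loc E β ρ s fun x => H x → Sat (ev φ z x) C

variable {φ : (Z → Bool) → (V → Bool) → Y → Bool} {J : Finset V} {z : Z → Bool}
  {Γ : CNF (V ⊕ (Y ⊕ Z))} {H : (V → Bool) → Prop} {S : Finset V}

theorem xv_singleton (l : Lit (V ⊕ (Y ⊕ Z))) :
    (xv ({l} : Finset (Lit (V ⊕ (Y ⊕ Z))))).card ≤ 1 := by
  rw [Finset.card_le_one]
  intro a ha b hb
  obtain ⟨c, hc⟩ := mem_xv.1 ha
  obtain ⟨d, hd⟩ := mem_xv.1 hb
  rw [Finset.mem_singleton] at hc hd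
  rw [← hd] at hc
  simpa using congrArg Prod.fst hc

theorem clause_step' (h : Wld E β ρ s w r φ J z Γ H S)
    {C : Clause (V ⊕ (Y ⊕ Z))} (hCw : (xv C \ J).card ≤ w)
    (hCl : Loc E β ρ s fun x => H x → Sat (ev φ z x) C) (P : Lit (V ⊕ (Y ⊕ Z)) → Prop)
    (hl : ∀ l' ∈ C, P l' → Loc E β ρ s fun x => H x → ev φ z x l'.1 = !l'.2) :
    Loc E β ρ s fun x => H x →
      Sat (ev φ z x) C ∧ ∀ l' ∈ C, P l' → ev φ z x l'.1 = !l'.2 := by
  classical
  have hYc : 2 * (S ∪ xv C).card ≤ s := by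
    have h0 : S ∪ xv C ⊆ S ∪ (xv C \ J) := by
      intro v hv
      rcases Finset.mem_union.1 hv with hv | hv
      · exact Finset.mem_union_left _ hv
      · by_cases hvJ : v ∈ J
        · exact Finset.mem_union_left _ (h.hJ hvJ)
        · exact Finset.mem_union_right _ (Finset.mem_sdiff.2 ⟨hv, hvJ⟩)
    have h1 := Finset.card_union_le S (xv C \ J)
    have h2 := h.hs
    have h3 := Finset.card_le_card h0
    omega
  have hJ' : J ⊆ S ∪ xv C := h.hJ.trans Finset.subset_union_left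
  have hH' : Supp (S ∪ xv C) H := h.hH.mono Finset.subset_union_left
  have hlit : ∀ l' ∈ C, Supp (S ∪ xv C) fun x => ev φ z x l'.1 = !l'.2 := by
    intro l' hl'
    exact supp_lit h.hφ hJ' z Finset.subset_union_right hl' (fun b => b = !l'.2)
  have h1 : Loc E β ρ s fun x => ∀ l' ∈ C.filter P, H x → ev φ z x l'.1 = !l'.2 := by
    refine Loc.all h.exp hYc (C.filter P)
      (fun l' x => H x → ev φ z x l'.1 = !l'.2) ?_ ?_
    · intro l' hl'
      exact hH'.imp (hlit l' (Finset.mem_filter.1 hl').1)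
    · intro l' hl'
      exact hl l' (Finset.mem_filter.1 hl').1 (Finset.mem_filter.1 hl').2
  have hS1 : Supp (S ∪ xv C) fun x => ∀ l' ∈ C.filter P, H x → ev φ z x l'.1 = !l'.2 := by
    intro x x' hx hh l' hl'
    exact (hH'.imp (hlit l' (Finset.mem_filter.1 hl').1)) x x' hx (hh l' hl')
  have hS2 : Supp (S ∪ xv C) fun x => H x → Sat (ev φ z x) C :=
    hH'.imp (supp_sat' h.hφ hJ' z Finset.subset_union_right)
  refine (h1.and h.exp hYc hS1 hS2 hCl).mono ?_
  intro x _ hx hh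
  exact ⟨hx.2 hh, fun l' hl' hP => hx.1 l' (Finset.mem_filter.2 ⟨hl', hP⟩) hh⟩

theorem up_loc' (h : Wld E β ρ s w r φ J z Γ H S) {U : Finset (Lit (V ⊕ (Y ⊕ Z)))}
    (hU : ∀ u ∈ U, Loc E β ρ s fun x => H x → ev φ z x u.1 = u.2)
    {l : Lit (V ⊕ (Y ⊕ Z))} (hl : UP Γ U l) :
    Loc E β ρ s fun x => H x → ev φ z x l.1 = l.2 := by
  classical
  induction hl with
  | unit hl => exact hU _ hl
  | @prop C l hC hl _ ih =>
    rcases h.nar C hC with ⟨v, b, hl', hρ⟩ | hw
    · by_cases hll : ((Sum.inl v, b) : Lit (V ⊕ (Y ⊕ Z))) = l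
      · subst hll
        exact Loc.triv fun x hx _ => hx _ _ hρ
      · refine (ih _ hl' hll).mono ?_
        intro x hx hh hHx
        have h1 : x v = !b := hh hHx
        have h2 := hx _ _ hρ
        rw [h2] at h1
        cases b <;> simp at h1
    · refine (clause_step' h hw (h.loc C hC) (fun l' => l' ≠ l) ?_).mono ?_
      · intro l' hl' hne
        exact ih l' hl' hne
      · intro x _ hh hHx
        obtain ⟨⟨l', hl', hs'⟩, h'⟩ := hh hHx
        by_cases hll : l' = l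
        · rw [← hll]; exact hs'
        · have := h' l' hl' hll
          rw [hs'] at this
          cases hb : l'.2 <;> rw [hb] at this <;> simp at this

theorem conflict_loc' (h : Wld E β ρ s w r φ J z Γ H S) {U : Finset (Lit (V ⊕ (Y ⊕ Z)))}
    (hU : ∀ u ∈ U, Loc E β ρ s fun x => H x → ev φ z x u.1 = u.2) (hc : Conflict Γ U) :
    Loc E β ρ s fun x => ¬ H x := by
  classical
  rcases hc with ⟨C, hC, hc⟩ | ⟨l, h1, h2⟩
  · rcases h.nar C hC with ⟨v, b, hl', hρ⟩ | hw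
    · refine (up_loc' h hU (hc _ hl')).mono ?_
      intro x hx hh hHx
      have h1 : x v = !b := hh hHx
      have h2 := hx _ _ hρ
      rw [h2] at h1
      cases b <;> simp at h1
    · refine (clause_step' h hw (h.loc C hC) (fun _ => True) ?_).mono ?_
      · intro l' hl' _
        exact up_loc' h hU (hc l' hl')
      · intro x _ hh hHx
        obtain ⟨⟨l', hl', hs'⟩, h'⟩ := hh hHx
        have := h' l' hl' trivial
        rw [hs'] at this
        cases hb : l'.2 <;> rw [hb] at this <;> simp at this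
  · have h1' := up_loc' h hU h1
    have h2' := up_loc' h hU h2
    have hYc : 2 * (S ∪ xv {l}).card ≤ s := by
      have e1 := Finset.card_union_le S (xv {l})
      have e2 := h.hs
      have e3 := xv_singleton l
      have e4 := h.hw1
      omega
    have hJ' : J ⊆ S ∪ xv {l} := h.hJ.trans Finset.subset_union_left
    have hH' : Supp (S ∪ xv {l}) H := h.hH.mono Finset.subset_union_left
    have hlit : ∀ P : Bool → Prop, Supp (S ∪ xv {l}) fun x => P (ev φ z x l.1) :=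
      fun P => supp_lit h.hφ hJ' z Finset.subset_union_right (Finset.mem_singleton_self l) P
    refine (h1'.and h.exp hYc (hH'.imp (hlit fun b => b = l.2))
      (hH'.imp (hlit fun b => b = !l.2)) h2').mono ?_
    intro x _ hh hHx
    have a := hh.1 hHx
    have b := hh.2 hHx
    rw [a] at b
    cases hb : l.2 <;> rw [hb] at b <;> simp at b

/-- A refutation in the sense of `Conf` under local hypotheses. -/
theorem conf_loc (h : Wld E β ρ s w r φ J z Γ H S) {U : Finset (Lit (V ⊕ (Y ⊕ Z)))}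
    (hU : ∀ u ∈ U, Loc E β ρ s fun x => H x → ev φ z x u.1 = u.2) (hc : Conf r Γ U) :
    Loc E β ρ s fun x => ¬ H x := by
  classical
  rcases hc with hc | ⟨R, hR, hRc, hun⟩
  · exact conflict_loc' h hU hc
  by_cases hcomp : ∃ u ∈ U, neg u ∈ U
  · obtain ⟨u, hu, hu'⟩ := hcomp
    exact conflict_loc' h hU (Or.inr ⟨u, UP.unit hu, UP.unit hu'⟩)
  by_cases hρ : ∃ v b, ((Sum.inl v, b) : Lit (V ⊕ (Y ⊕ Z))) ∈ U ∧ ρ v = some (!b)
  · obtain ⟨v, b, hvb, hv⟩ := hρ
    refine (hU _ hvb).mono ?_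
    intro x hx hh hHx
    have h1 : x v = b := hh hHx
    have h2 := hx _ _ hv
    rw [h2] at h1
    cases b <;> simp at h1
  push Not at hcomp hρ
  obtain ⟨R', hR'⟩ : ∃ R', R' = R.filter fun D => ¬ TS ρ D := ⟨_, rfl⟩
  obtain ⟨X, hX⟩ : ∃ X, X = R'.biUnion fun D => xv D := ⟨_, rfl⟩
  have hmR' : ∀ D, D ∈ R' ↔ D ∈ R ∧ ¬ TS ρ D := by
    intro D
    rw [hR', Finset.mem_filter]
  have hXc : (X \ J).card ≤ r * w := by
    have e1 : X \ J ⊆ R'.biUnion fun D => xv D \ J := by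
      intro v hv
      rw [Finset.mem_sdiff, hX, Finset.mem_biUnion] at hv
      obtain ⟨⟨D, hD, hvD⟩, hvJ⟩ := hv
      exact Finset.mem_biUnion.2 ⟨D, hD, Finset.mem_sdiff.2 ⟨hvD, hvJ⟩⟩
    refine (Finset.card_le_card e1).trans (Finset.card_biUnion_le.trans ?_)
    have e2 : ∀ D ∈ R', (xv D \ J).card ≤ w := by
      intro D hD
      exact (h.nar D (hR ((hmR' D).1 hD).1)).resolve_left ((hmR' D).1 hD).2
    refine (Finset.sum_le_card_nsmul _ _ w e2).trans ?_
    rw [smul_eq_mul]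
    refine Nat.mul_le_mul_right _ (le_trans ?_ hRc)
    rw [hR']
    exact Finset.card_filter_le _ _
  have hYc : 2 * (S ∪ X).card ≤ s := by
    have h0 : S ∪ X ⊆ S ∪ (X \ J) := by
      intro v hv
      rcases Finset.mem_union.1 hv with hv | hv
      · exact Finset.mem_union_left _ hv
      · by_cases hvJ : v ∈ J
        · exact Finset.mem_union_left _ (h.hJ hvJ)
        · exact Finset.mem_union_right _ (Finset.mem_sdiff.2 ⟨hv, hvJ⟩)
    have h1 := Finset.card_union_le S (X \ J)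
    have h2 := h.hs
    have h3 := Finset.card_le_card h0
    omega
  have hJ' : J ⊆ S ∪ X := h.hJ.trans Finset.subset_union_left
  have hH' : Supp (S ∪ X) H := h.hH.mono Finset.subset_union_left
  have hxX : ∀ D ∈ R', xv D ⊆ S ∪ X := by
    intro D hD v hv
    refine Finset.mem_union_right _ ?_
    rw [hX]
    exact Finset.mem_biUnion.2 ⟨D, hD, hv⟩
  have hS1 : ∀ D ∈ R', Supp (S ∪ X) fun x => H x → Sat (ev φ z x) D := by
    intro D hD
    exact hH'.imp (supp_sat' h.hφ hJ' z (hxX D hD))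
  have h1 : Loc E β ρ s fun x => ∀ D ∈ R', H x → Sat (ev φ z x) D :=
    Loc.all h.exp hYc R' (fun D x => H x → Sat (ev φ z x) D) hS1
      fun D hD => h.loc D (hR ((hmR' D).1 hD).1)
  obtain ⟨U', hU'⟩ : ∃ U', U' = U.filter fun u => ∃ D ∈ R', ∃ b, (u.1, b) ∈ D := ⟨_, rfl⟩
  have hmU' : ∀ u, u ∈ U' ↔ u ∈ U ∧ ∃ D ∈ R', ∃ b, (u.1, b) ∈ D := by
    intro u
    rw [hU', Finset.mem_filter]
  have hS2 : ∀ u ∈ U', Supp (S ∪ X) fun x => H x → ev φ z x u.1 = u.2 := by
    intro u hu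
    obtain ⟨-, D, hD, b, hb⟩ := (hmU' u).1 hu
    exact hH'.imp (supp_lit h.hφ hJ' z (hxX D hD) hb fun c => c = u.2)
  have h2 : Loc E β ρ s fun x => ∀ u ∈ U', H x → ev φ z x u.1 = u.2 :=
    Loc.all h.exp hYc U' (fun u x => H x → ev φ z x u.1 = u.2) hS2
      fun u hu => hU u ((hmU' u).1 hu).1
  refine (h1.and h.exp hYc (fun x x' hx hh D hD => hS1 D hD x x' hx (hh D hD))
    (fun x x' hx hh u hu => hS2 u hu x x' hx (hh u hu)) h2).mono ?_
  rintro x hx ⟨hx1, hx2⟩ hHx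
  obtain ⟨a, ha⟩ : ∃ a : V ⊕ (Y ⊕ Z) → Bool, ∀ q, a q =
      if (q, true) ∈ U then true else if (q, false) ∈ U then false else ev φ z x q :=
    ⟨_, fun _ => rfl⟩
  obtain ⟨D, hD, hns⟩ := hun a (by
    rintro ⟨q, b⟩ hl
    show a q = b
    rw [ha]
    cases b with
    | true => rw [if_pos hl]
    | false =>
      have hn : ((q, true) : Lit (V ⊕ (Y ⊕ Z))) ∉ U := fun h' => hcomp _ hl h'
      rw [if_neg hn, if_pos hl])
  apply hns
  by_cases hts : TS ρ D
  · obtain ⟨v, b, hvb, hv⟩ := hts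
    refine ⟨(Sum.inl v, b), hvb, ?_⟩
    show a (Sum.inl v) = b
    rw [ha]
    have hxv : ev φ z x (Sum.inl v) = b := hx v b hv
    cases b with
    | true =>
      by_cases h1 : ((Sum.inl v, true) : Lit (V ⊕ (Y ⊕ Z))) ∈ U
      · rw [if_pos h1]
      · have hn : ((Sum.inl v, false) : Lit (V ⊕ (Y ⊕ Z))) ∉ U := fun h' => hρ v false h' hv
        rw [if_neg h1, if_neg hn, hxv]
    | false =>
      have hn : ((Sum.inl v, true) : Lit (V ⊕ (Y ⊕ Z))) ∉ U := fun h' => hρ v true h' hv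
      rw [if_neg hn]
      by_cases h1 : ((Sum.inl v, false) : Lit (V ⊕ (Y ⊕ Z))) ∈ U
      · rw [if_pos h1]
      · rw [if_neg h1, hxv]
  · have hDR : D ∈ R' := (hmR' D).2 ⟨hD, hts⟩
    obtain ⟨l, hl, hl'⟩ := hx1 D hDR hHx
    refine ⟨l, hl, ?_⟩
    rw [ha]
    by_cases h1 : ((l.1, true) : Lit (V ⊕ (Y ⊕ Z))) ∈ U
    · rw [if_pos h1, ← hl']
      exact (hx2 _ ((hmU' _).2 ⟨h1, D, hDR, l.2, hl⟩) hHx).symm
    · rw [if_neg h1]
      by_cases h2 : ((l.1, false) : Lit (V ⊕ (Y ⊕ Z))) ∈ U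
      · rw [if_pos h2, ← hl']
        exact (hx2 _ ((hmU' _).2 ⟨h2, D, hDR, l.2, hl⟩) hHx).symm
      · rw [if_neg h2, hl']

end World

end Pool.Agent.SRN
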