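import Mathlib
import Pool.Agent.SRN.World

/-!
# SR with new variables: substitutions
-/

namespace Pool.Agent.SRN

open Finset Pool.Agent.SR

section Target

variable {V Y Z : Type*} [Fintype V] [DecidableEq V] [DecidableEq Y] [Fintype Z] [DecidableEq Z]

/-- The variable in `V` on which the value of `u` after the substitution depends, if any. -/
def xt (ω : Subst (V ⊕ (Y ⊕ Z))) (u : V ⊕ (Y ⊕ Z)) : Finset V :=
  match ω u with
  | Sum.inr (Sum.inl v, _) => {v}
  | _ => ∅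

/-- The variables in `V` on which the values of the variables in `X` and in `Z` depend after the
substitution. -/
def tg (ω : Subst (V ⊕ (Y ⊕ Z))) (X : Finset V) : Finset V :=
  (X.biUnion fun v => xt ω (Sum.inl v)) ∪
    ((univ : Finset Z).biUnion fun z => xt ω (Sum.inr (Sum.inr z)))

theorem xt_card (ω : Subst (V ⊕ (Y ⊕ Z))) (u : V ⊕ (Y ⊕ Z)) : (xt ω u).card ≤ 1 := by
  unfold xt
  split <;> simp

theorem bi_card {K : Type*} (X : Finset K) (f : K → Finset V) (hf : ∀ a, (f a).card ≤ 1) :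
    (X.biUnion f).card ≤ X.card := by
  refine Finset.card_biUnion_le.trans ?_
  have := Finset.sum_le_sum fun a (_ : a ∈ X) => hf a
  simpa using this

theorem tg_card (ω : Subst (V ⊕ (Y ⊕ Z))) (X : Finset V) :
    (tg ω X).card ≤ X.card + Fintype.card Z := by
  unfold tg
  refine (Finset.card_union_le _ _).trans (Nat.add_le_add ?_ ?_)
  · exact bi_card X _ fun v => xt_card ω _
  · exact bi_card univ _ fun v => xt_card ω _

theorem xt_tg_x (ω : Subst (V ⊕ (Y ⊕ Z))) {X : Finset V} {v : V} (hv : v ∈ X) :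
    xt ω (Sum.inl v) ⊆ tg ω X := by
  intro a ha
  exact Finset.mem_union_left _ (Finset.mem_biUnion.2 ⟨v, hv, ha⟩)

theorem xt_tg_z (ω : Subst (V ⊕ (Y ⊕ Z))) (X : Finset V) (z : Z) :
    xt ω (Sum.inr (Sum.inr z)) ⊆ tg ω X := by
  intro a ha
  exact Finset.mem_union_right _ (Finset.mem_biUnion.2 ⟨z, Finset.mem_univ _, ha⟩)

theorem tg_mono (ω : Subst (V ⊕ (Y ⊕ Z))) {X X' : Finset V} (h : X ⊆ X') : tg ω X ⊆ tg ω X' := by
  unfold tg
  exact Finset.union_subset_union (Finset.biUnion_subset_biUnion_of_subset_left _ h) subset_rfl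

theorem xt_inr {ω : Subst (V ⊕ (Y ⊕ Z))} {u : V ⊕ (Y ⊕ Z)} {v : V} {b : Bool}
    (h : ω u = Sum.inr (Sum.inl v, b)) : v ∈ xt ω u := by
  unfold xt
  rw [h]
  simp

/-- The value of `u` after the substitution depends only on `J` and on `xt ω u`. -/
theorem sub_congr' {ω : Subst (V ⊕ (Y ⊕ Z))} {φ : (Z → Bool) → (V → Bool) → Y → Bool}
    {J : Finset V} (hφ : Dep φ J) (z : Z → Bool) {x x' : V → Bool}
    (hJ : ∀ v ∈ J, x v = x' v) (u : V ⊕ (Y ⊕ Z)) (hu : ∀ v ∈ xt ω u, x v = x' v) :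
    sub ω (ev φ z x) u = sub ω (ev φ z x') u := by
  cases hω : ω u with
  | inl b => rw [sub_inl hω, sub_inl hω]
  | inr l =>
    rw [sub_inr hω, sub_inr hω, ev_congr hφ z hJ l.1]
    intro v hv
    refine hu v (xt_inr (b := l.2) ?_)
    rw [hω, ← hv]

theorem supp_sub' {ω : Subst (V ⊕ (Y ⊕ Z))} {φ : (Z → Bool) → (V → Bool) → Y → Bool}
    {J S : Finset V} (hφ : Dep φ J) (hJ : J ⊆ S) (z : Z → Bool)
    {u : V ⊕ (Y ⊕ Z)} (hu : xt ω u ⊆ S) (P : Bool → Prop) :
    Supp S fun x => P (sub ω (ev φ z x) u) := by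
  intro x x' hx h
  rw [← sub_congr' hφ z (fun v hv => hx v (hJ hv)) u fun v hv => hx v (hu hv)]
  exact h

/-- The values of the free new variables after the substitution. -/
def zz (ω : Subst (V ⊕ (Y ⊕ Z))) (φ : (Z → Bool) → (V → Bool) → Y → Bool) (z : Z → Bool)
    (x : V → Bool) : Z → Bool :=
  fun t => sub ω (ev φ z x) (Sum.inr (Sum.inr t))

theorem zz_congr {ω : Subst (V ⊕ (Y ⊕ Z))} {φ : (Z → Bool) → (V → Bool) → Y → Bool}
    {J S : Finset V} (hφ : Dep φ J) (hJ : J ⊆ S) (z : Z → Bool) (X : Finset V)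
    (hX : tg ω X ⊆ S) {x x' : V → Bool} (hx : ∀ v ∈ S, x v = x' v) :
    zz ω φ z x = zz ω φ z x' := by
  funext t
  exact sub_congr' hφ z (fun v hv => hx v (hJ hv)) _ fun v hv => hx v (hX (xt_tg_z ω X t hv))

/-- The values after the substitution, in which the defined variables are evaluated according to
their definitions. -/
def mx (ω : Subst (V ⊕ (Y ⊕ Z))) (φ : (Z → Bool) → (V → Bool) → Y → Bool) (z : Z → Bool)
    (x : V → Bool) : V ⊕ (Y ⊕ Z) → Bool :=
  Sum.elim (fun v => sub ω (ev φ z x) (Sum.inl v)) (Sum.elim (φ (zz ω φ z x) x) (zz ω φ z x))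

theorem mx_congr {ω : Subst (V ⊕ (Y ⊕ Z))} {φ : (Z → Bool) → (V → Bool) → Y → Bool}
    {J S : Finset V} (hφ : Dep φ J) (hJ : J ⊆ S) (z : Z → Bool) (X : Finset V)
    (hX : tg ω X ⊆ S) {x x' : V → Bool} (hx : ∀ v ∈ S, x v = x' v) (u : V ⊕ (Y ⊕ Z))
    (hu : ∀ v, u = Sum.inl v → v ∈ X) : mx ω φ z x u = mx ω φ z x' u := by
  have hz := zz_congr hφ hJ z X hX hx
  rcases u with v | (y | t)
  · exact sub_congr' hφ z (fun v hv => hx v (hJ hv)) _
      fun v' hv' => hx v' (hX (xt_tg_x ω (hu v rfl) hv'))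
  · show φ (zz ω φ z x) x y = φ (zz ω φ z x') x' y
    rw [hz, hφ _ x x' fun v hv => hx v (hJ hv)]
  · show zz ω φ z x t = zz ω φ z x' t
    rw [hz]

theorem supp_mx {ω : Subst (V ⊕ (Y ⊕ Z))} {φ : (Z → Bool) → (V → Bool) → Y → Bool}
    {J S : Finset V} (hφ : Dep φ J) (hJ : J ⊆ S) (z : Z → Bool)
    {D : Clause (V ⊕ (Y ⊕ Z))} (hD : tg ω (xv D) ⊆ S) :
    Supp S fun x => Sat (mx ω φ z x) D := by
  rintro x x' hx ⟨l, hl, h⟩
  refine ⟨l, hl, ?_⟩
  rw [← mx_congr hφ hJ z (xv D) hD hx l.1]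
  · exact h
  · intro v hv
    refine mem_xv.2 ⟨l.2, ?_⟩
    rw [← hv]
    exact hl

/-- The substitution of the variables in `V` for fixed values of the new variables. -/
def wsub (ω : Subst (V ⊕ (Y ⊕ Z))) (y₁ : Y → Bool) (z₀ : Z → Bool) : Subst V := fun v =>
  match ω (Sum.inl v) with
  | Sum.inl b => Sum.inl b
  | Sum.inr (Sum.inl u, b) => Sum.inr (u, b)
  | Sum.inr (Sum.inr (Sum.inl y), b) => Sum.inl (y₁ y == b)
  | Sum.inr (Sum.inr (Sum.inr z), b) => Sum.inl (z₀ z == b)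

theorem wsub_eq (ω : Subst (V ⊕ (Y ⊕ Z))) (φ : (Z → Bool) → (V → Bool) → Y → Bool)
    (z₀ : Z → Bool) (x : V → Bool) (v : V) :
    sub (wsub ω (φ z₀ x) z₀) x v = sub ω (ev φ z₀ x) (Sum.inl v) := by
  cases hω : ω (Sum.inl v) with
  | inl b =>
    rw [sub_inl hω]
    refine sub_inl ?_ x
    unfold wsub
    rw [hω]
  | inr l =>
    rw [sub_inr hω]
    obtain ⟨u | (y | z), b⟩ := l
    · refine (sub_inr (l := (u, b)) ?_ x).trans rfl
      unfold wsub
      rw [hω]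
    · refine (sub_inl (b := (φ z₀ x y == b)) ?_ x).trans rfl
      unfold wsub
      rw [hω]
    · refine (sub_inl (b := (z₀ z == b)) ?_ x).trans rfl
      unfold wsub
      rw [hω]

end Target

section Key

variable {V Y Z ι : Type*} [Fintype V] [DecidableEq V] [DecidableEq Y] [DecidableEq Z]
  [DecidableEq ι] {k : ℕ}
variable {E : ι → Fin k → V} {β : ι → ZMod 2} {ρ : V → Option Bool} {s w r : ℕ}
variable {φ : (Z → Bool) → (V → Bool) → Y → Bool} {J : Finset V} {z₀ : Z → Bool}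
  {Γ : CNF (V ⊕ (Y ⊕ Z))} {H : (V → Bool) → Prop} {S : Finset V}

/-- If `H` implies that the new clause `C` is false and that a clause `B` of `Γ` is false after the
substitution, then `H` is locally false. -/
theorem key (h : Wld E β ρ s w r φ J z₀ Γ H S) {C : Clause (V ⊕ (Y ⊕ Z))}
    (hC : ∀ x, H x → ¬ Sat (ev φ z₀ x) C) {ω : Subst (V ⊕ (Y ⊕ Z))}
    (hω : ∀ B ∈ Γ, SSat ω B ∨ Conf r Γ (negs C ∪ negs (simage ω B)))
    {B : Clause (V ⊕ (Y ⊕ Z))} (hB : B ∈ Γ)
    (hl : ∀ l ∈ B, Loc E β ρ s fun x => H x → sub ω (ev φ z₀ x) l.1 = !l.2) :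
    Loc E β ρ s fun x => ¬ H x := by
  classical
  have hconf : Conf r Γ (negs C ∪ negs (simage ω B)) → Loc E β ρ s fun x => ¬ H x := by
    intro hc
    refine conf_loc h ?_ hc
    intro u hu
    rcases Finset.mem_union.1 hu with hu | hu
    · obtain ⟨l₀, hl₀, rfl⟩ := Finset.mem_image.1 hu
      exact Loc.triv fun x _ hx => bool_ne_not fun he => hC x hx ⟨l₀, hl₀, he⟩
    · obtain ⟨u', hu', rfl⟩ := Finset.mem_image.1 hu
      obtain ⟨l₀, hl₀, hlu⟩ := mem_simage.1 hu'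
      refine (hl l₀ hl₀).mono ?_
      intro x _ hh hx
      refine bool_ne_not fun he => ?_
      have h1 := (app_inr hlu (ev φ z₀ x)).2 he
      have h2 := hh hx
      rw [h1] at h2
      cases hb : l₀.2 <;> rw [hb] at h2 <;> simp at h2
  rcases hω B hB with hs | hc
  · rcases hs with ⟨l, hlB, happ⟩ | ⟨l, hlB, l', hlB', u, h1, h2⟩
    · refine (hl l hlB).mono ?_
      intro x _ hh hx
      have h1 := app_inl happ (ev φ z₀ x)
      have h2 := hh hx
      rw [h1] at h2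
      cases hb : l.2 <;> rw [hb] at h2 <;> simp at h2
    · refine hconf (Or.inl (Or.inr ⟨neg u, UP.unit ?_, UP.unit ?_⟩))
      · exact Finset.mem_union_right _ (Finset.mem_image_of_mem _ (mem_simage.2 ⟨l, hlB, h1⟩))
      · exact Finset.mem_union_right _ (Finset.mem_image_of_mem _ (mem_simage.2 ⟨l', hlB', h2⟩))
  · exact hconf hc

end Key

end Pool.Agent.SRN
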