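import Mathlib
import Pool.Agent.SRN.Step

/-!
# SR with new variables: an SR inference in one world fixes the variables of the CNF
-/

namespace Pool.Agent.SRN

open Finset Pool.Agent.SR

section Fix

variable {V Y Z ι : Type*} [Fintype V] [DecidableEq V] [DecidableEq Y] [Fintype Z]
  [DecidableEq Z] [Fintype ι] [DecidableEq ι] {k : ℕ}
variable {E : ι → Fin k → V} {β : ι → ZMod 2} {ρ : V → Option Bool} {s w r θ D : ℕ}
variable {φ : (Z → Bool) → (V → Bool) → Y → Bool} {J : Finset V} {z₀ : Z → Bool}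
  {Γ : CNF (V ⊕ (Y ⊕ Z))} {H : (V → Bool) → Prop} {S : Finset V}

theorem Wld.ext' (h : Wld E β ρ s w r φ J z₀ Γ H S) {H' : (V → Bool) → Prop} {S' : Finset V}
    (hS : S ⊆ S') (hH : Supp S' H') (hi : ∀ x, H' x → H x) (hs : 2 * (S'.card + (r * w + w)) ≤ s) :
    Wld E β ρ s w r φ J z₀ Γ H' S' :=
  ⟨h.exp, h.hφ, h.hJ.trans hS, hH, h.hw1, hs, h.nar,
    fun C hC => (h.loc C hC).mono fun x _ hx hh => hx (hi x hh)⟩

/-- A clause `B` of `Γ` holds in the assignment `m x`, which agrees locally on the variables of `B`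
with the assignment after the substitution. -/
theorem gen_clause (h : Wld E β ρ s w r φ J z₀ Γ H S) {C : Clause (V ⊕ (Y ⊕ Z))}
    (hC : ∀ x, H x → ¬ Sat (ev φ z₀ x) C) {ω : Subst (V ⊕ (Y ⊕ Z))}
    (hω : ∀ B ∈ Γ, SSat ω B ∨ Conf r Γ (negs C ∪ negs (simage ω B)))
    {B : Clause (V ⊕ (Y ⊕ Z))} (hB : B ∈ Γ) {m : (V → Bool) → V ⊕ (Y ⊕ Z) → Bool}
    {S' : Finset V} (hS : S ⊆ S') (hm : Supp S' fun x => Sat (m x) B)
    (hs : 2 * (S'.card + (r * w + w)) ≤ s)
    (hP : ∀ l ∈ B, Loc E β ρ s fun x => H x → sub ω (ev φ z₀ x) l.1 = m x l.1) :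
    Loc E β ρ s fun x => H x → Sat (m x) B := by
  have hH : Supp S' fun x => H x ∧ ¬ Sat (m x) B := (h.hH.mono hS).and hm.not
  have h' := h.ext' hS hH (fun x hx => hx.1) hs
  refine (key h' (fun x hx => hC x hx.1) hω hB ?_).mono ?_
  · intro l hl
    refine (hP l hl).mono ?_
    intro x _ hx hh
    rw [hx hh.1]
    exact bool_ne_not fun he => hh.2 ⟨l, hl, he⟩
  · intro x _ hx hh
    by_contra hn
    exact hx ⟨hh, hn⟩

/-- The new clause holds in the assignment `m x`. -/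
theorem gen_new (h : Wld E β ρ s w r φ J z₀ Γ H S) {C : Clause (V ⊕ (Y ⊕ Z))}
    {ω : Subst (V ⊕ (Y ⊕ Z))} (hωC : SSat ω C) {m : (V → Bool) → V ⊕ (Y ⊕ Z) → Bool}
    {S' : Finset V} (hs : 2 * (S'.card + 2) ≤ s)
    (hsup : ∀ l ∈ C, Supp (S' ∪ xt ω l.1) fun x => H x → sub ω (ev φ z₀ x) l.1 = m x l.1)
    (hP : ∀ l ∈ C, Loc E β ρ s fun x => H x → sub ω (ev φ z₀ x) l.1 = m x l.1) :
    Loc E β ρ s fun x => H x → Sat (m x) C := by
  rcases hωC with ⟨l, hl, happ⟩ | ⟨l, hl, l', hl', u, h1, h2⟩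
  · refine (hP l hl).mono ?_
    intro x _ hx hh
    refine ⟨l, hl, ?_⟩
    rw [← hx hh]
    exact app_inl happ _
  · have hc : 2 * (S' ∪ (xt ω l.1 ∪ xt ω l'.1)).card ≤ s := by
      have e1 := Finset.card_union_le S' (xt ω l.1 ∪ xt ω l'.1)
      have e2 := Finset.card_union_le (xt ω l.1) (xt ω l'.1)
      have e3 := xt_card ω l.1
      have e4 := xt_card ω l'.1
      omega
    refine ((hP l hl).and h.exp hc ((hsup l hl).mono ?_) ((hsup l' hl').mono ?_)
      (hP l' hl')).mono ?_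
    · exact Finset.union_subset_union subset_rfl Finset.subset_union_left
    · exact Finset.union_subset_union subset_rfl Finset.subset_union_right
    · intro x _ hx hh
      by_cases hu : ev φ z₀ x u.1 = u.2
      · refine ⟨l, hl, ?_⟩
        rw [← hx.1 hh]
        exact (app_inr h1 _).2 hu
      · refine ⟨l', hl', ?_⟩
        rw [← hx.2 hh]
        exact (app_inr h2 _).2 (bool_ne_not hu)

/-- The image of a clause under the inclusion of the variables. -/
def lf {U : Type*} (T : Type*) [DecidableEq U] [DecidableEq T] (C : Clause U) : Clause (U ⊕ T) :=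
  C.image fun l => (Sum.inl l.1, l.2)

theorem sat_lf {U T : Type*} [DecidableEq U] [DecidableEq T] (C : Clause U) (x : U ⊕ T → Bool) :
    Sat x (lf T C) ↔ Sat (fun u => x (Sum.inl u)) C := by
  constructor
  · rintro ⟨l, hl, h⟩
    obtain ⟨l', hl', rfl⟩ := Finset.mem_image.1 hl
    exact ⟨l', hl', h⟩
  · rintro ⟨l, hl, h⟩
    exact ⟨_, Finset.mem_image_of_mem _ hl, h⟩

theorem mem_lf {U T : Type*} [DecidableEq U] [DecidableEq T] {C : Clause U} {l : Lit (U ⊕ T)}
    (h : l ∈ lf T C) : ∃ v, l.1 = Sum.inl v ∧ (v, l.2) ∈ C := by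
  obtain ⟨l', hl', rfl⟩ := Finset.mem_image.1 h
  exact ⟨l'.1, rfl, hl'⟩

theorem xv_lf (C : Clause V) : xv (lf (Y ⊕ Z) C) = vars C := by
  ext v
  rw [mem_xv]
  constructor
  · rintro ⟨b, hb⟩
    obtain ⟨v', h1, h2⟩ := mem_lf hb
    simp only [Sum.inl.injEq] at h1
    rw [h1]
    exact mem_vars h2
  · intro hv
    obtain ⟨l, hl, rfl⟩ := Finset.mem_image.1 hv
    exact ⟨l.2, Finset.mem_image.2 ⟨l, hl, rfl⟩⟩

/-- The parity constraints hold after the substitution. -/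
theorem st2 (h : Wld E β ρ s w r φ J z₀ Γ H S) (hkw : k ≤ w)
    {C : Clause (V ⊕ (Y ⊕ Z))} (hC : ∀ x, H x → ¬ Sat (ev φ z₀ x) C)
    {ω : Subst (V ⊕ (Y ⊕ Z))}
    (hω : ∀ B ∈ Γ, SSat ω B ∨ Conf r Γ (negs C ∪ negs (simage ω B)))
    (hF : ∀ B ∈ cnf E β, lf (Y ⊕ Z) B ∈ Γ)
    (hsz : 2 * (S.card + (w + Fintype.card Z) + (r * w + w)) ≤ s) (j : ι) :
    Loc E β ρ s fun x => H x → EqAt E β j fun v => sub ω (ev φ z₀ x) (Sum.inl v) := by
  classical
  have hS' : (S ∪ tg ω (edge E j)).card ≤ S.card + (w + Fintype.card Z) := by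
    have h1 := Finset.card_union_le S (tg ω (edge E j))
    have h2 := tg_card ω (edge E j)
    have h3 := edge_card E j
    omega
  have hYc : 2 * (S ∪ tg ω (edge E j)).card ≤ s := by omega
  have hJ' : J ⊆ S ∪ tg ω (edge E j) := h.hJ.trans Finset.subset_union_left
  have hv : ∀ a : Fin k → Bool, tg ω (xv (lf (Y ⊕ Z) (clauseOf E j a))) ⊆
      S ∪ tg ω (edge E j) := by
    intro a
    rw [xv_lf]
    exact (tg_mono ω (vars_clauseOf E j a)).trans Finset.subset_union_right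
  have h1 : Loc E β ρ s fun x => ∀ a ∈ univ.filter fun a : Fin k → Bool => bpar a ≠ β j,
      H x → Sat (mx ω φ z₀ x) (lf (Y ⊕ Z) (clauseOf E j a)) := by
    refine Loc.all h.exp hYc _
      (fun a x => H x → Sat (mx ω φ z₀ x) (lf (Y ⊕ Z) (clauseOf E j a))) ?_ ?_
    · intro a _
      exact (h.hH.mono Finset.subset_union_left).imp (supp_mx h.hφ hJ' z₀ (hv a))
    · intro a ha
      simp only [Finset.mem_filter, Finset.mem_univ, true_and] at ha
      by_cases ht : Taut (clauseOf E j a)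
      · refine Loc.triv fun x _ _ => ?_
        rw [sat_lf]
        exact sat_of_taut ht _
      · have hD : clauseOf E j a ∈ cnf E β := by
          unfold cnf
          refine Finset.mem_image.2 ⟨(j, a), ?_, rfl⟩
          simp only [Finset.mem_filter, Finset.mem_univ, true_and]
          exact ⟨ha, ht⟩
        refine gen_clause h hC hω (hF _ hD) Finset.subset_union_left
          (supp_mx h.hφ hJ' z₀ (hv a)) (by omega) ?_
        intro l hl
        obtain ⟨v, hv', -⟩ := mem_lf hl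
        refine Loc.triv fun x _ _ => ?_
        rw [hv']
        rfl
  refine h1.mono ?_
  intro x _ hx hh
  rw [eqAt_iff]
  intro a ha
  have := hx a (by simp [ha]) hh
  rw [sat_lf] at this
  exact this

/-- The substitution fixes every variable of the CNF. -/
theorem st3 (h : Wld E β ρ s w r φ J z₀ Γ H S)
    (hSE : ∀ G : Finset ι, G.card ≤ s → (θ + 1) * G.card ≤ (once E ρ G).card)
    (hprop : Props E θ D) (hD : 4 ≤ D) (hkθ : k ≤ 2 * θ) (hodd : Odd k) (hθ1 : 1 ≤ θ)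
    (hkw : k ≤ w) (hs : 4 * S.card + 4 * k ≤ s)
    (hFu : ∀ x : V → Bool, ∃ j, ¬ EqAt E β j x)
    {C : Clause (V ⊕ (Y ⊕ Z))} (hC : ∀ x, H x → ¬ Sat (ev φ z₀ x) C)
    {ω : Subst (V ⊕ (Y ⊕ Z))}
    (hω : ∀ B ∈ Γ, SSat ω B ∨ Conf r Γ (negs C ∪ negs (simage ω B)))
    (hF : ∀ B ∈ cnf E β, lf (Y ⊕ Z) B ∈ Γ)
    (hsz : 2 * (S.card + (w + Fintype.card Z) + (r * w + w)) ≤ s) (v : V) :
    Loc E β ρ s fun x => H x → sub ω (ev φ z₀ x) (Sum.inl v) = x v := by
  classical
  have h1 : ∀ x₁ : V → Bool, Loc E β ρ s fun x =>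
      ((∀ u ∈ J, x u = x₁ u) ∧ H x) → sub ω (ev φ z₀ x) (Sum.inl v) = x v := by
    intro x₁
    have hReg : Supp S fun x => (∀ u ∈ J, x u = x₁ u) ∧ H x := by
      intro x x' hx hh
      refine ⟨fun u hu => ?_, h.hH x x' hx hh.2⟩
      rw [← hx u (h.hJ hu)]
      exact hh.1 u hu
    have hstep : ∀ j, Loc E β ρ s fun x =>
        ((∀ u ∈ J, x u = x₁ u) ∧ H x) → EqAt E β j (sub (wsub ω (φ z₀ x₁) z₀) x) := by
      intro j
      refine (st2 h hkw hC hω hF hsz j).mono ?_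
      intro x _ hx hh
      have := hx hh.2
      have e : sub (wsub ω (φ z₀ x₁) z₀) x =
          fun v => sub ω (ev φ z₀ x) (Sum.inl v) := by
        funext v
        rw [← wsub_eq, h.hφ z₀ x x₁ hh.1]
      rw [e]
      exact this
    refine (reg_fixed hSE hprop hD hkθ hodd hθ1 hs hFu le_rfl hReg hstep v).mono ?_
    intro x _ hx hh
    have := hx hh
    rw [← this, ← h.hφ z₀ x x₁ hh.1, wsub_eq]
  have hYc : 2 * (S ∪ ({v} ∪ xt ω (Sum.inl v))).card ≤ s := by
    have e1 := Finset.card_union_le S ({v} ∪ xt ω (Sum.inl v))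
    have e2 := Finset.card_union_le {v} (xt ω (Sum.inl v))
    have e3 := xt_card ω (Sum.inl v)
    have e4 : ({v} : Finset V).card = 1 := Finset.card_singleton v
    have e5 : 1 ≤ k := Odd.pos hodd
    omega
  have hJ' : J ⊆ S ∪ ({v} ∪ xt ω (Sum.inl v)) := h.hJ.trans Finset.subset_union_left
  have h2 : Loc E β ρ s fun x => ∀ x₁ ∈ (univ : Finset (V → Bool)),
      ((∀ u ∈ J, x u = x₁ u) ∧ H x) → sub ω (ev φ z₀ x) (Sum.inl v) = x v := by
    refine Loc.all h.exp hYc univ (fun x₁ x =>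
      ((∀ u ∈ J, x u = x₁ u) ∧ H x) → sub ω (ev φ z₀ x) (Sum.inl v) = x v) ?_ fun x₁ _ => h1 x₁
    intro x₁ _
    refine Supp.imp (Supp.and ?_ ?_) ?_
    · intro x x' hx hh u hu
      rw [← hx u (hJ' hu)]
      exact hh u hu
    · exact h.hH.mono Finset.subset_union_left
    · intro x x' hx hh
      rw [← sub_congr' h.hφ z₀ (fun u hu => hx u (hJ' hu)) _ fun u hu =>
        hx u (Finset.mem_union_right _ (Finset.mem_union_right _ hu)),
        ← hx v (Finset.mem_union_right _ (Finset.mem_union_left _ (Finset.mem_singleton_self v)))]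
      exact hh
  refine h2.mono ?_
  intro x _ hx hh
  exact hx x (Finset.mem_univ _) ⟨fun _ _ => rfl, hh⟩

end Fix

end Pool.Agent.SRN
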