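import Mathlib
import Pool.Agent.SRN.Fix

/-!
# SR with new variables: an SR inference in all worlds
-/

namespace Pool.Agent.SRN

open Finset Pool.Agent.SR

section Comb

variable {V Y Z ι : Type*} [Fintype V] [DecidableEq V] [DecidableEq Y] [Fintype Z]
  [DecidableEq Z] [Fintype ι] [DecidableEq ι] {k : ℕ}
variable {E : ι → Fin k → V} {β : ι → ZMod 2} {ρ : V → Option Bool} {s w r θ D : ℕ}
variable {φ : (Z → Bool) → (V → Bool) → Y → Bool} {J : Finset V} {z₀ : Z → Bool}
  {Γ : CNF (V ⊕ (Y ⊕ Z))} {H : (V → Bool) → Prop} {S : Finset V}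

/-- The clauses `δ y` define the variables `y` in `U`, and their values are given by `φ`. -/
structure Dfd (φ : (Z → Bool) → (V → Bool) → Y → Bool) (J : Finset V)
    (δ : Y → CNF (V ⊕ (Y ⊕ Z))) (U : Finset Y) (rk : Y → ℕ) : Prop where
  sat : ∀ z x, ∀ y ∈ U, ∀ B ∈ δ y, Sat (ev φ z x) B
  dfn : ∀ y ∈ U, Dfn y (δ y)
  ord : ∀ y ∈ U, ∀ C ∈ δ y, ∀ y' b, (Sum.inr (Sum.inl y'), b) ∈ C →
    y' = y ∨ (y' ∈ U ∧ rk y' < rk y)
  hJ : ∀ y ∈ U, ∀ C ∈ δ y, xv C ⊆ J
  off : ∀ z x, ∀ y, y ∉ U → φ z x y = false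

/-- The values of the defined variables depend only on `J` and on the free new variables. -/
theorem Dfd.dep {δ : Y → CNF (V ⊕ (Y ⊕ Z))} {U : Finset Y} {rk : Y → ℕ}
    (hd : Dfd φ J δ U rk) : Dep φ J := by
  classical
  intro z x x' hx
  have key : ∀ n : ℕ, ∀ y ∈ U, rk y < n → φ z x y = φ z x' y := by
    intro n
    induction n with
    | zero =>
      intro y _ hn
      exact absurd hn (Nat.not_lt_zero _)
    | succ n ih =>
      intro y hy hn
      obtain ⟨b, -, hb⟩ := hd.dfn y hy (ev φ z x)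
      have e1 : φ z x y = b := by
        refine hb _ fun B hB => ?_
        have e3 : Function.update (ev φ z x) (Sum.inr (Sum.inl y)) (φ z x y) = ev φ z x :=
          Function.update_eq_self (Sum.inr (Sum.inl y)) (ev φ z x)
        rw [e3]
        exact hd.sat z x y hy B hB
      have e2 : φ z x' y = b := by
        refine hb _ fun B hB => ?_
        obtain ⟨l, hl, hl2⟩ := hd.sat z x' y hy B hB
        refine ⟨l, hl, ?_⟩
        rw [← hl2]
        rcases hl1 : l.1 with v | (y' | t)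
        · rw [Function.update_of_ne (by simp)]
          have hvJ : v ∈ J := hd.hJ y hy B hB (mem_xv.2 ⟨l.2, by rw [← hl1]; exact hl⟩)
          exact hx v hvJ
        · by_cases hyy : y' = y
          · subst hyy
            rw [Function.update_self]
            rfl
          · rw [Function.update_of_ne (by simpa using hyy)]
            have h1 := (hd.ord y hy B hB y' l.2 (by rw [← hl1]; exact hl)).resolve_left hyy
            exact ih y' h1.1 (by omega)
        · rw [Function.update_of_ne (by simp)]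
          rfl
      rw [e1, e2]
  funext y
  by_cases hy : y ∈ U
  · exact key _ y hy (Nat.lt_succ_self _)
  · rw [hd.off z x y hy, hd.off z x' y hy]

theorem stB {δ : Y → CNF (V ⊕ (Y ⊕ Z))} {U : Finset Y} {rk : Y → ℕ}
    (h : Wld E β ρ s w r φ J z₀ Γ H S) (hd : Dfd φ J δ U rk) (hδΓ : U.biUnion δ ⊆ Γ)
    {C : Clause (V ⊕ (Y ⊕ Z))} (hC : ∀ x, H x → ¬ Sat (ev φ z₀ x) C)
    {ω : Subst (V ⊕ (Y ⊕ Z))}
    (hω : ∀ B ∈ Γ, SSat ω B ∨ Conf r Γ (negs C ∪ negs (simage ω B)))
    (hX : ∀ v, Loc E β ρ s fun x => H x → sub ω (ev φ z₀ x) (Sum.inl v) = x v)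
    (hsz : 2 * (S.card + (S.card + Fintype.card Z) + (r * w + w + 2)) ≤ s) :
    ∀ n : ℕ, ∀ y ∈ U, rk y < n → Loc E β ρ s fun x => H x →
      sub ω (ev φ z₀ x) (Sum.inr (Sum.inl y)) = φ (zz ω φ z₀ x) x y := by
  classical
  intro n
  induction n with
  | zero =>
    intro y _ hn
    exact absurd hn (Nat.not_lt_zero _)
  | succ n ih =>
    intro y hy hn
    obtain ⟨By, hBy⟩ : ∃ By, By = δ y := ⟨_, rfl⟩
    have hDf := hd.dfn y hy
    have hord := hd.ord y hy
    have hByJ := hd.hJ y hy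
    have hsat := fun z x => hd.sat z x y hy
    have hByΓ : By ⊆ Γ := by
      rw [hBy]
      exact (Finset.subset_biUnion_of_mem δ hy).trans hδΓ
    rw [← hBy] at hDf hord hByJ
    simp only [← hBy] at hsat
    set S' := (S ∪ tg ω S) ∪ xt ω (Sum.inr (Sum.inl y)) with hS'
    have hS'c : S'.card ≤ S.card + (S.card + Fintype.card Z) + 1 := by
      have e1 : S'.card ≤ (S ∪ tg ω S).card + (xt ω (Sum.inr (Sum.inl y))).card :=
        Finset.card_union_le _ _
      have e2 := Finset.card_union_le S (tg ω S)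
      have e3 := tg_card ω S
      have e4 := xt_card ω (Sum.inr (Sum.inl y))
      omega
    have hYc : 2 * S'.card ≤ s := by omega
    have hSS' : S ⊆ S' := Finset.subset_union_left.trans Finset.subset_union_left
    have htg : tg ω S ⊆ S' := Finset.subset_union_right.trans Finset.subset_union_left
    have hJ' : J ⊆ S' := h.hJ.trans hSS'
    have hH' : Supp S' H := h.hH.mono hSS'
    set m : (V → Bool) → V ⊕ (Y ⊕ Z) → Bool := fun x =>
      Function.update (mx ω φ z₀ x) (Sum.inr (Sum.inl y))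
        (sub ω (ev φ z₀ x) (Sum.inr (Sum.inl y))) with hm
    have hm1 : ∀ x, m x (Sum.inr (Sum.inl y)) = sub ω (ev φ z₀ x) (Sum.inr (Sum.inl y)) := by
      intro x
      rw [hm]
      exact Function.update_self _ _ _
    have hm2 : ∀ x u, u ≠ Sum.inr (Sum.inl y) → m x u = mx ω φ z₀ x u := by
      intro x u hu
      rw [hm]
      exact Function.update_of_ne hu _ _
    have hms : ∀ B ∈ By, Supp S' fun x => Sat (m x) B := by
      rintro B hB x x' hx ⟨l, hl, hh⟩
      refine ⟨l, hl, ?_⟩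
      rw [← hh]
      by_cases hly : l.1 = Sum.inr (Sum.inl y)
      · rw [hly, hm1, hm1]
        exact (sub_congr' h.hφ z₀ (fun v hv => hx v (hJ' hv)) _
          fun v hv => hx v (Finset.mem_union_right _ hv)).symm
      · rw [hm2 _ _ hly, hm2 _ _ hly]
        refine (mx_congr h.hφ hJ' z₀ S htg hx l.1 ?_).symm
        intro v hv
        refine h.hJ (hByJ B hB (mem_xv.2 ⟨l.2, ?_⟩))
        rw [← hv]
        exact hl
    have h1 : Loc E β ρ s fun x => ∀ B ∈ By, H x → Sat (m x) B := by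
      refine Loc.all h.exp hYc By (fun B x => H x → Sat (m x) B)
        (fun B hB => hH'.imp (hms B hB)) ?_
      intro B hB
      refine gen_clause h hC hω (hByΓ hB) hSS' (hms B hB) (by omega) ?_
      intro l hl
      rcases hl1 : l.1 with v | (y' | t)
      · refine Loc.triv fun x _ _ => ?_
        rw [hm2 x _ (by simp)]
        rfl
      · by_cases hyy : y' = y
        · subst hyy
          exact Loc.triv fun x _ _ => (hm1 x).symm
        · have hyU := (hord B hB y' l.2 (by rw [← hl1]; exact hl)).resolve_left hyy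
          refine (ih y' hyU.1 (by omega)).mono ?_
          intro x _ hx hh
          rw [hx hh, hm2 x _ (by simpa using hyy)]
          rfl
      · refine Loc.triv fun x _ _ => ?_
        rw [hm2 x _ (by simp)]
        rfl
    have hs2 : ∀ v ∈ J, Supp S' fun x => H x → sub ω (ev φ z₀ x) (Sum.inl v) = x v := by
      intro v hv
      refine hH'.imp ?_
      intro x x' hx hh
      rw [← sub_congr' h.hφ z₀ (fun u hu => hx u (hJ' hu)) _
        fun u hu => hx u (htg (xt_tg_x ω (h.hJ hv) hu)), ← hx v (hJ' hv)]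
      exact hh
    have h2 : Loc E β ρ s fun x => ∀ v ∈ J, H x → sub ω (ev φ z₀ x) (Sum.inl v) = x v :=
      Loc.all h.exp hYc J (fun v x => H x → sub ω (ev φ z₀ x) (Sum.inl v) = x v) hs2
        fun v _ => hX v
    refine (h1.and h.exp hYc ?_ ?_ h2).mono ?_
    · intro x x' hx hh B hB
      exact (hH'.imp (hms B hB)) x x' hx (hh B hB)
    · intro x x' hx hh v hv
      exact hs2 v hv x x' hx (hh v hv)
    · rintro x _ ⟨hx1, hx2⟩ hh
      obtain ⟨b, -, hb⟩ := hDf (ev φ (zz ω φ z₀ x) x)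
      have e1 : sub ω (ev φ z₀ x) (Sum.inr (Sum.inl y)) = b := by
        refine hb _ fun B hB => ?_
        obtain ⟨l, hl, hl2⟩ := hx1 B hB hh
        refine ⟨l, hl, ?_⟩
        rw [← hl2]
        rcases hl1 : l.1 with v | (y' | t)
        · rw [hm2 x _ (by simp), Function.update_of_ne (by simp)]
          have hvJ : v ∈ J := hByJ B hB (mem_xv.2 ⟨l.2, by rw [← hl1]; exact hl⟩)
          exact (hx2 v hvJ hh).symm
        · by_cases hyy : y' = y
          · subst hyy
            rw [hm1, Function.update_self]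
          · rw [hm2 x _ (by simpa using hyy), Function.update_of_ne (by simpa using hyy)]
            rfl
        · rw [hm2 x _ (by simp), Function.update_of_ne (by simp)]
          rfl
      have e2 : φ (zz ω φ z₀ x) x y = b := by
        refine hb _ fun B hB => ?_
        have e3 : Function.update (ev φ (zz ω φ z₀ x) x) (Sum.inr (Sum.inl y))
            (φ (zz ω φ z₀ x) x y) = ev φ (zz ω φ z₀ x) x :=
          Function.update_eq_self (Sum.inr (Sum.inl y)) (ev φ (zz ω φ z₀ x) x)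
        rw [e3]
        exact hsat _ _ B hB
      rw [e1, e2]

theorem sr_world {δ : Y → CNF (V ⊕ (Y ⊕ Z))} {U : Finset Y} {rk : Y → ℕ}
    {σ : (Z → Bool) → Clause (V ⊕ (Y ⊕ Z))} {C : Clause (V ⊕ (Y ⊕ Z))}
    (h : Wld E β ρ s w r φ J z₀ Γ (fun x => ¬ Sat (ev φ z₀ x) C ∧
      ¬ ∃ z, z ≠ z₀ ∧ Sat (ev φ z x) (σ z)) S)
    (hSE : ∀ G : Finset ι, G.card ≤ s → (θ + 1) * G.card ≤ (once E ρ G).card)
    (hprop : Props E θ D) (hD : 4 ≤ D) (hkθ : k ≤ 2 * θ) (hodd : Odd k) (hθ1 : 1 ≤ θ)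
    (hkw : k ≤ w) (hs : 4 * S.card + 4 * k ≤ s)
    (hsz : 2 * (S.card + (w + Fintype.card Z) + (r * w + w)) ≤ s)
    (hsz' : 2 * (S.card + (S.card + Fintype.card Z) + (r * w + w + 2)) ≤ s)
    (hFu : ∀ x : V → Bool, ∃ j, ¬ EqAt E β j x)
    (hF : ∀ B ∈ cnf E β, lf (Y ⊕ Z) B ∈ Γ)
    (hd : Dfd φ J δ U rk) (hδΓ : U.biUnion δ ⊆ Γ)
    (hσ₀ : σ z₀ = C) (hσ : ∀ z, σ z = C ∨ σ z ∈ Γ)
    (hσS : ∀ z, xv (σ z) ⊆ S) (hσU : ∀ z, Over U (σ z))
    (hR : SRedr r Γ C) : Loc E β ρ s fun x => ∃ z, Sat (ev φ z x) (σ z) := by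
  classical
  obtain ⟨ω, hωC, hω⟩ := hR
  have hC : ∀ x, (¬ Sat (ev φ z₀ x) C ∧ ¬ ∃ z, z ≠ z₀ ∧ Sat (ev φ z x) (σ z)) →
      ¬ Sat (ev φ z₀ x) C := fun x hx => hx.1
  have hS'c : (S ∪ tg ω S).card ≤ S.card + (S.card + Fintype.card Z) := by
    have e2 := Finset.card_union_le S (tg ω S)
    have e3 := tg_card ω S
    omega
  have hYc : 2 * (S ∪ tg ω S).card ≤ s := by omega
  have hSS' : S ⊆ S ∪ tg ω S := Finset.subset_union_left
  have htg : tg ω S ⊆ S ∪ tg ω S := Finset.subset_union_right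
  have hJ' : J ⊆ S ∪ tg ω S := h.hJ.trans hSS'
  have hH' := h.hH.mono hSS'
  have hX := st3 h hSE hprop hD hkθ hodd hθ1 hkw hs hFu hC hω hF hsz
  have hY := stB h hd hδΓ hC hω hX hsz'
  -- the variables of the CNF
  have ha' : ∀ v ∈ S, Supp (S ∪ tg ω S) fun x => (¬ Sat (ev φ z₀ x) C ∧
      ¬ ∃ z, z ≠ z₀ ∧ Sat (ev φ z x) (σ z)) → sub ω (ev φ z₀ x) (Sum.inl v) = x v := by
    intro v hv
    refine hH'.imp ?_
    intro x x' hx hh
    rw [← sub_congr' h.hφ z₀ (fun u hu => hx u (hJ' hu)) _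
      fun u hu => hx u (htg (xt_tg_x ω hv hu)), ← hx v (hSS' hv)]
    exact hh
  have ha := Loc.all h.exp hYc S _ ha' fun v _ => hX v
  -- the substituted assignment agrees with its modification
  have hP : ∀ z, ∀ l ∈ σ z, Loc E β ρ s fun x => (¬ Sat (ev φ z₀ x) C ∧
      ¬ ∃ z, z ≠ z₀ ∧ Sat (ev φ z x) (σ z)) →
        sub ω (ev φ z₀ x) l.1 = mx ω φ z₀ x l.1 := by
    intro z l hl
    rcases hl1 : l.1 with v | (y' | t)
    · exact Loc.triv fun x _ _ => rfl
    · have hyU : y' ∈ U := hσU z y' l.2 (by rw [← hl1]; exact hl)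
      exact (hY _ y' hyU (Nat.lt_succ_self _)).mono fun x _ hx hh => hx hh
    · exact Loc.triv fun x _ _ => rfl
  -- the clauses of the other worlds
  have hc' : ∀ z ∈ (univ : Finset (Z → Bool)), Supp (S ∪ tg ω S) fun x =>
      (¬ Sat (ev φ z₀ x) C ∧ ¬ ∃ z, z ≠ z₀ ∧ Sat (ev φ z x) (σ z)) →
        Sat (mx ω φ z₀ x) (σ z) := by
    intro z _
    refine hH'.imp (supp_mx h.hφ hJ' z₀ ?_)
    exact (tg_mono ω (hσS z)).trans htg
  have hc := Loc.all (E := E) (β := β) (ρ := ρ) h.exp hYc (univ : Finset (Z → Bool)) _ hc' (by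
    intro z _
    rcases hσ z with hz | hz
    · rw [hz]
      refine gen_new (S' := S ∪ tg ω S) h hωC (by omega) ?_ ?_
      · intro l hl
        refine (h.hH.mono (hSS'.trans Finset.subset_union_left)).imp ?_
        intro x x' hx hh
        have hJ'' : ∀ v ∈ J, x v = x' v := fun v hv =>
          hx v (Finset.mem_union_left _ (hJ' hv))
        rw [← sub_congr' h.hφ z₀ hJ'' l.1 fun v hv => hx v (Finset.mem_union_right _ hv),
          ← mx_congr h.hφ (hJ'.trans Finset.subset_union_left) z₀ S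
            (htg.trans Finset.subset_union_left) hx l.1 ?_]
        · exact hh
        · intro v hv
          refine hσS z (mem_xv.2 ⟨l.2, ?_⟩)
          rw [hz, ← hv]
          exact hl
      · intro l hl
        exact hP z l (by rw [hz]; exact hl)
    · refine gen_clause h hC hω hz hSS' ?_ (by omega) (hP z)
      exact supp_mx h.hφ hJ' z₀ ((tg_mono ω (hσS z)).trans htg))
  have hac := ha.and h.exp hYc
    (by
      intro x x' hx hh v hv
      exact ha' v hv x x' hx (hh v hv))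
    (by
      intro x x' hx hh z hz
      exact hc' z hz x x' hx (hh z hz)) hc
  refine hac.mono ?_
  rintro x _ ⟨h1, h3⟩
  by_cases hsC : Sat (ev φ z₀ x) C
  · exact ⟨z₀, by rw [hσ₀]; exact hsC⟩
  by_cases hq : ∃ z, z ≠ z₀ ∧ Sat (ev φ z x) (σ z)
  · obtain ⟨z, -, hz⟩ := hq
    exact ⟨z, hz⟩
  refine ⟨zz ω φ z₀ x, ?_⟩
  obtain ⟨l, hl, hl'⟩ := h3 (zz ω φ z₀ x) (Finset.mem_univ _) ⟨hsC, hq⟩
  refine ⟨l, hl, ?_⟩
  rw [← hl']
  rcases hl1 : l.1 with v | (y | t)
  · have hvS : v ∈ S := hσS _ (mem_xv.2 ⟨l.2, by rw [← hl1]; exact hl⟩)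
    exact (h1 v hvS ⟨hsC, hq⟩).symm
  · rfl
  · rfl

end Comb

end Pool.Agent.SRN
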