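import Mathlib
import Pool.Agent.SRN.Comb

/-!
# SR with new variables: the invariant of the derivations
-/

namespace Pool.Agent.SRN

open Finset Pool.Agent.SR

section Inv

variable {V Y Z ι : Type*} [Fintype V] [DecidableEq V] [DecidableEq Y] [Fintype Z]
  [DecidableEq Z] [Fintype ι] [DecidableEq ι] {k : ℕ}

/-- The hypotheses on the system of parity constraints and on the restriction. -/
structure Cx (E : ι → Fin k → V) (β : ι → ZMod 2) (ρ : V → Option Bool) (s w θ D M m r : ℕ) :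
    Prop where
  hSE : ∀ G : Finset ι, G.card ≤ s → (θ + 1) * G.card ≤ (once E ρ G).card
  hprop : Props E θ D
  hD : 4 ≤ D
  hkθ : k ≤ 2 * θ
  hodd : Odd k
  hθ1 : 1 ≤ θ
  hw1 : 1 ≤ w
  hkw : k ≤ w
  hFu : ∀ x : V → Bool, ∃ j, ¬ EqAt E β j x
  hs : 8 * (m + (M * w + r * w)) + 4 * k ≤ s

variable {E : ι → Fin k → V} {β : ι → ZMod 2} {ρ : V → Option Bool} {s w θ D m r : ℕ}
variable {φ : (Z → Bool) → (V → Bool) → Y → Bool} {J : Finset V}

theorem mem_up {U T : Type*} [DecidableEq U] [DecidableEq T] {F : CNF U} {B : Clause (U ⊕ T)} :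
    B ∈ up T F ↔ ∃ C ∈ F, lf T C = B := by
  unfold up lf
  rw [Finset.mem_image]

theorem Cx.exp {M : ℕ} (h : Cx E β ρ s w θ D M m r) : Expand E ρ s := by
  intro G hG
  refine le_trans ?_ (h.hSE G hG)
  have : (θ + 1) * G.card = θ * G.card + G.card := by ring
  omega

/-- The clauses of `Γ` are local consequences in some world. -/
def LocInv (E : ι → Fin k → V) (β : ι → ZMod 2) (ρ : V → Option Bool) (s : ℕ)
    (φ : (Z → Bool) → (V → Bool) → Y → Bool) (Γ : CNF (V ⊕ (Y ⊕ Z))) : Prop :=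
  ∀ σ : (Z → Bool) → Clause (V ⊕ (Y ⊕ Z)), (∀ z, σ z ∈ Γ) →
    Loc E β ρ s fun x => ∃ z, Sat (ev φ z x) (σ z)

theorem ts_sat {x : V → Bool} (hx : Agree ρ x) {C : Clause (V ⊕ (Y ⊕ Z))} (hC : TS ρ C)
    (z : Z → Bool) : Sat (ev φ z x) C := by
  obtain ⟨v, b, hl, hv⟩ := hC
  exact ⟨_, hl, hx v b hv⟩

theorem sset_card {σ : (Z → Bool) → Clause (V ⊕ (Y ⊕ Z))}
    (hnar : ∀ z, (xv (σ z) \ J).card ≤ w) :
    (J ∪ (univ : Finset (Z → Bool)).biUnion fun z => xv (σ z)).card ≤
      J.card + Fintype.card (Z → Bool) * w := by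
  classical
  have h1 : (J ∪ (univ : Finset (Z → Bool)).biUnion fun z => xv (σ z)) ⊆
      J ∪ (univ : Finset (Z → Bool)).biUnion fun z => xv (σ z) \ J := by
    intro v hv
    by_cases hJ : v ∈ J
    · exact Finset.mem_union_left _ hJ
    · rcases Finset.mem_union.1 hv with hv | hv
      · exact absurd hv hJ
      · obtain ⟨z, hz, hv⟩ := Finset.mem_biUnion.1 hv
        exact Finset.mem_union_right _
          (Finset.mem_biUnion.2 ⟨z, hz, Finset.mem_sdiff.2 ⟨hv, hJ⟩⟩)
  refine (Finset.card_le_card h1).trans ((Finset.card_union_le _ _).trans ?_)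
  refine Nat.add_le_add_left ?_ _
  refine Finset.card_biUnion_le.trans ?_
  have := Finset.sum_le_sum fun z (_ : z ∈ (univ : Finset (Z → Bool))) => hnar z
  refine this.trans ?_
  simp

theorem loc_insert (h : Cx E β ρ s w θ D (Fintype.card (Z → Bool)) m r) (hJm : J.card ≤ m)
    {δ : Y → CNF (V ⊕ (Y ⊕ Z))} {U : Finset Y} {rk : Y → ℕ} (hd : Dfd φ J δ U rk)
    {Γ : CNF (V ⊕ (Y ⊕ Z))} (hbase : up (Y ⊕ Z) (cnf E β) ⊆ Γ) (hδΓ : U.biUnion δ ⊆ Γ)
    (hnar : ∀ B ∈ Γ, TS ρ B ∨ (xv B \ J).card ≤ w) (hov : ∀ B ∈ Γ, Over U B)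
    (hloc : LocInv E β ρ s φ Γ)
    {C : Clause (V ⊕ (Y ⊕ Z))} (hC : TS ρ C ∨ (xv C \ J).card ≤ w) (hCU : Over U C)
    (hR : RUPr r Γ C ∨ SRedr r Γ C) :
    ∀ (n : ℕ) (σ : (Z → Bool) → Clause (V ⊕ (Y ⊕ Z))), (∀ z, σ z = C ∨ σ z ∈ Γ) →
      (univ.filter fun z => σ z ∉ Γ).card ≤ n →
      Loc E β ρ s fun x => ∃ z, Sat (ev φ z x) (σ z) := by
  classical
  intro n
  induction n with
  | zero =>
    intro σ _ hn
    refine hloc σ fun z => ?_
    by_contra hz
    have h0 := Finset.card_eq_zero.1 (Nat.le_zero.1 hn)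
    have : z ∈ (univ.filter fun z => σ z ∉ Γ) := by simp [hz]
    rw [h0] at this
    exact absurd this (Finset.notMem_empty _)
  | succ n ih =>
    intro σ hσ hn
    by_cases hts : ∃ z, TS ρ (σ z)
    · obtain ⟨z, hz⟩ := hts
      exact Loc.triv fun x hx => ⟨z, ts_sat hx hz z⟩
    push Not at hts
    have hσn : ∀ z, (xv (σ z) \ J).card ≤ w := by
      intro z
      rcases hσ z with hz | hz
      · rw [hz]
        refine hC.resolve_left fun hh => hts z ?_
        rw [hz]
        exact hh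
      · exact (hnar _ hz).resolve_left (hts z)
    have hσU : ∀ z, Over U (σ z) := by
      intro z
      rcases hσ z with hz | hz
      · rw [hz]
        exact hCU
      · exact hov _ hz
    by_cases hall : ∀ z, σ z ∈ Γ
    · exact hloc σ hall
    push Not at hall
    obtain ⟨z₀, hz₀⟩ := hall
    have hσ₀ : σ z₀ = C := (hσ z₀).resolve_right hz₀
    obtain ⟨S, hS⟩ : ∃ S, S = J ∪ (univ : Finset (Z → Bool)).biUnion fun z => xv (σ z) := ⟨_, rfl⟩
    have hSc : S.card ≤ m + Fintype.card (Z → Bool) * w := by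
      rw [hS]
      exact (sset_card hσn).trans (Nat.add_le_add_right hJm _)
    have hJS : J ⊆ S := by
      rw [hS]
      exact Finset.subset_union_left
    have hσS : ∀ z, xv (σ z) ⊆ S := by
      intro z v hv
      rw [hS]
      exact Finset.mem_union_right _ (Finset.mem_biUnion.2 ⟨z, Finset.mem_univ _, hv⟩)
    have hM : 1 ≤ Fintype.card (Z → Bool) := Fintype.card_pos
    have hMw : w ≤ Fintype.card (Z → Bool) * w := Nat.le_mul_of_pos_left w hM
    have hZM : Fintype.card Z ≤ Fintype.card (Z → Bool) * w := by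
      have e1 : Fintype.card Z ≤ Fintype.card (Z → Bool) := by
        rw [Fintype.card_fun, Fintype.card_bool]
        exact (Nat.lt_two_pow_self).le
      exact e1.trans (Nat.le_mul_of_pos_right _ h.hw1)
    have hhs := h.hs
    have hk1 : 1 ≤ k := Odd.pos h.hodd
    have hW : Wld E β ρ s w r φ J z₀ Γ (fun x => ¬ Sat (ev φ z₀ x) C ∧
        ¬ ∃ z, z ≠ z₀ ∧ Sat (ev φ z x) (σ z)) S := by
      refine ⟨h.exp, hd.dep, hJS, ?_, h.hw1, ?_, hnar, ?_⟩
      · refine Supp.and ?_ (Supp.not ?_)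
        · refine (supp_sat' hd.dep hJS z₀ ?_).not
          rw [← hσ₀]
          exact hσS z₀
        · rintro x x' hx ⟨z, hz, hh⟩
          exact ⟨z, hz, supp_sat' hd.dep hJS z (hσS z) x x' hx hh⟩
      · omega
      · intro B hB
        have hup : ∀ z, Function.update σ z₀ B z = C ∨ Function.update σ z₀ B z ∈ Γ := by
          intro z
          by_cases hz : z = z₀
          · subst hz
            rw [Function.update_self]
            exact Or.inr hB
          · rw [Function.update_of_ne hz]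
            exact hσ z
        have hcard : (univ.filter fun z => Function.update σ z₀ B z ∉ Γ).card ≤ n := by
          have hlt : (univ.filter fun z => Function.update σ z₀ B z ∉ Γ) ⊂
              (univ.filter fun z => σ z ∉ Γ) := by
            rw [Finset.ssubset_iff_of_subset]
            · refine ⟨z₀, by simp [hz₀], ?_⟩
              simp [hB]
            · intro z hz
              rw [Finset.mem_filter] at hz ⊢
              refine ⟨hz.1, ?_⟩
              by_cases hzz : z = z₀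
              · rw [hzz]
                exact hz₀
              · have := hz.2
                rw [Function.update_of_ne hzz] at this
                exact this
          have := Finset.card_lt_card hlt
          omega
        refine (ih _ hup hcard).mono ?_
        rintro x _ ⟨z, hz⟩ hh
        by_cases hzz : z = z₀
        · subst hzz
          rw [Function.update_self] at hz
          exact hz
        · rw [Function.update_of_ne hzz] at hz
          exact absurd ⟨z, hzz, hz⟩ hh.2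
    rcases hR with hR | hR
    · refine (conf_loc hW ?_ hR).mono ?_
      · intro u hu
        obtain ⟨l₀, hl₀, rfl⟩ := Finset.mem_image.1 hu
        exact Loc.triv fun x _ hx => bool_ne_not fun he => hx.1 ⟨l₀, hl₀, he⟩
      · intro x _ hx
        by_cases hsat : Sat (ev φ z₀ x) C
        · exact ⟨z₀, by rw [hσ₀]; exact hsat⟩
        · by_cases hq : ∃ z, z ≠ z₀ ∧ Sat (ev φ z x) (σ z)
          · obtain ⟨z, -, hz⟩ := hq
            exact ⟨z, hz⟩
          · exact absurd ⟨hsat, hq⟩ hx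
    · have hF : ∀ B ∈ cnf E β, lf (Y ⊕ Z) B ∈ Γ := by
        intro B hB
        exact hbase (mem_up.2 ⟨B, hB, rfl⟩)
      exact sr_world hW h.hSE h.hprop h.hD h.hkθ h.hodd h.hθ1 h.hkw (by omega) (by omega)
        (by omega) h.hFu hF hd hδΓ hσ₀ hσ hσS hσU hR

theorem xv_occ {A : CNF (V ⊕ (Y ⊕ Z))} {C : Clause (V ⊕ (Y ⊕ Z))} (hC : C ∈ A) :
    xv C ⊆ occ A := by
  intro v hv
  obtain ⟨b, hb⟩ := mem_xv.1 hv
  unfold occ
  simp only [Finset.mem_filter, Finset.mem_univ, true_and]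
  exact ⟨C, hC, b, hb⟩

theorem occ_mono {A A' : CNF (V ⊕ (Y ⊕ Z))} (h : A ⊆ A') : occ A ⊆ occ A' := by
  intro v hv
  unfold occ at hv ⊢
  simp only [Finset.mem_filter, Finset.mem_univ, true_and] at hv ⊢
  obtain ⟨C, hC, b, hb⟩ := hv
  exact ⟨C, h hC, b, hb⟩

/-- The state of a derivation. -/
structure Stt (E : ι → Fin k → V) (β : ι → ZMod 2) (ρ : V → Option Bool) (s w m : ℕ)
    (Γ : CNF (V ⊕ (Y ⊕ Z))) (δ : Y → CNF (V ⊕ (Y ⊕ Z))) (U : Finset Y)
    (φ : (Z → Bool) → (V → Bool) → Y → Bool) (rk : Y → ℕ) : Prop where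
  dfd : Dfd φ (occ (U.biUnion δ)) δ U rk
  occm : (occ (U.biUnion δ)).card ≤ m
  base : up (Y ⊕ Z) (cnf E β) ⊆ Γ
  defs : U.biUnion δ ⊆ Γ
  has : ∀ y ∈ U, ∀ C ∈ δ y, ∃ b, (Sum.inr (Sum.inl y), b) ∈ C
  nar : ∀ B ∈ Γ, TS ρ B ∨ (xv B).card ≤ w ∨ B ∈ U.biUnion δ
  ovr : ∀ B ∈ Γ, Over U B
  loc : LocInv E β ρ s φ Γ

theorem Stt.nar' {Γ : CNF (V ⊕ (Y ⊕ Z))} {δ : Y → CNF (V ⊕ (Y ⊕ Z))} {U : Finset Y}
    {rk : Y → ℕ} (hst : Stt E β ρ s w m Γ δ U φ rk) :
    ∀ B ∈ Γ, TS ρ B ∨ (xv B \ occ (U.biUnion δ)).card ≤ w := by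
  classical
  intro B hB
  rcases hst.nar B hB with h | h | h
  · exact Or.inl h
  · exact Or.inr ((Finset.card_le_card Finset.sdiff_subset).trans h)
  · right
    have : xv B \ occ (U.biUnion δ) = ∅ := by
      rw [Finset.sdiff_eq_empty_iff_subset]
      exact xv_occ h
    rw [this]
    simp

theorem stt_insert (h : Cx E β ρ s w θ D (Fintype.card (Z → Bool)) m r)
    {Γ : CNF (V ⊕ (Y ⊕ Z))} {δ : Y → CNF (V ⊕ (Y ⊕ Z))} {U : Finset Y} {rk : Y → ℕ}
    (hst : Stt E β ρ s w m Γ δ U φ rk)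
    {C : Clause (V ⊕ (Y ⊕ Z))} (hC : TS ρ C ∨ (xv C).card ≤ w) (hCU : Over U C)
    (hR : RUPr r Γ C ∨ SRedr r Γ C) : Stt E β ρ s w m (insert C Γ) δ U φ rk := by
  classical
  refine ⟨hst.dfd, hst.occm, hst.base.trans (Finset.subset_insert _ _),
    hst.defs.trans (Finset.subset_insert _ _), hst.has, ?_, ?_, ?_⟩
  · intro B hB
    rcases Finset.mem_insert.1 hB with rfl | hB
    · rcases hC with hC | hC
      · exact Or.inl hC
      · exact Or.inr (Or.inl hC)
    · exact hst.nar B hB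
  · intro B hB
    rcases Finset.mem_insert.1 hB with rfl | hB
    · exact hCU
    · exact hst.ovr B hB
  · intro σ hσ
    refine loc_insert h hst.occm hst.dfd hst.base hst.defs hst.nar' hst.ovr hst.loc
      (hC.imp_right fun hc => ?_) hCU hR _ σ (fun z => Finset.mem_insert.1 (hσ z)) le_rfl
    exact (Finset.card_le_card Finset.sdiff_subset).trans hc

theorem sat_agree {a a' : V ⊕ (Y ⊕ Z) → Bool} {C : Clause (V ⊕ (Y ⊕ Z))}
    (h : ∀ l ∈ C, a l.1 = a' l.1) (hs : Sat a C) : Sat a' C := by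
  obtain ⟨l, hl, hh⟩ := hs
  exact ⟨l, hl, by rw [← h l hl]; exact hh⟩

theorem live_insert {δ : Y → CNF (V ⊕ (Y ⊕ Z))} {U : Finset Y} {y : Y} (hy : y ∉ U)
    (B : CNF (V ⊕ (Y ⊕ Z))) :
    (insert y U).biUnion (Function.update δ y B) = U.biUnion δ ∪ B := by
  classical
  ext C
  rw [Finset.mem_biUnion, Finset.mem_union, Finset.mem_biUnion]
  constructor
  · rintro ⟨y', hy', hC⟩
    rcases Finset.mem_insert.1 hy' with rfl | hy'
    · rw [Function.update_self] at hC
      exact Or.inr hC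
    · have hne : y' ≠ y := by
        intro e
        rw [e] at hy'
        exact hy hy'
      rw [Function.update_of_ne hne] at hC
      exact Or.inl ⟨y', hy', hC⟩
  · rintro (⟨y', hy', hC⟩ | hC)
    · have hne : y' ≠ y := by
        intro e
        rw [e] at hy'
        exact hy hy'
      exact ⟨y', Finset.mem_insert_of_mem hy', by rw [Function.update_of_ne hne]; exact hC⟩
    · exact ⟨y, Finset.mem_insert_self _ _, by rw [Function.update_self]; exact hC⟩

theorem stt_ext {Γ B : CNF (V ⊕ (Y ⊕ Z))} {δ : Y → CNF (V ⊕ (Y ⊕ Z))} {U : Finset Y} {y : Y}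
    {rk : Y → ℕ} (hst : Stt E β ρ s w m Γ δ U φ rk) (hy : y ∉ U)
    (hB : ∀ C ∈ B, Over (insert y U) C)
    (hBy : ∀ C ∈ B, ∃ b, (Sum.inr (Sum.inl y), b) ∈ C)
    (hDf : Dfn y B) (hm : (occ (U.biUnion δ ∪ B)).card ≤ m) :
    ∃ φ' rk', Stt E β ρ s w m (Γ ∪ B) (Function.update δ y B) (insert y U) φ' rk' := by
  classical
  choose b hb hbu using fun (z : Z → Bool) (x : V → Bool) => hDf (ev φ z x)
  beta_reduce at hb hbu
  obtain ⟨φ', hφ'⟩ : ∃ φ' : (Z → Bool) → (V → Bool) → Y → Bool,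
      ∀ z x, φ' z x = Function.update (φ z x) y (b z x) := ⟨_, fun _ _ => rfl⟩
  have hev : ∀ z x, ev φ' z x = Function.update (ev φ z x) (Sum.inr (Sum.inl y)) (b z x) := by
    intro z x
    funext u
    rcases u with v | (y' | t)
    · rw [Function.update_of_ne (by simp)]
      rfl
    · by_cases hyy : y' = y
      · subst hyy
        rw [Function.update_self]
        show φ' z x y' = _
        rw [hφ', Function.update_self]
      · rw [Function.update_of_ne (by simpa using hyy)]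
        show φ' z x y' = φ z x y'
        rw [hφ', Function.update_of_ne hyy]
    · rw [Function.update_of_ne (by simp)]
      rfl
  have hold : ∀ z x, ∀ C : Clause (V ⊕ (Y ⊕ Z)), Over U C → Sat (ev φ z x) C →
      Sat (ev φ' z x) C := by
    intro z x C hC
    refine sat_agree fun l hl => ?_
    rw [hev]
    by_cases hly : l.1 = Sum.inr (Sum.inl y)
    · exact absurd (hC y l.2 (by rw [← hly]; exact hl)) hy
    · rw [Function.update_of_ne hly]
  have hne : ∀ y' ∈ U, y' ≠ y := by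
    intro y' h e
    rw [e] at h
    exact hy h
  have hnew : ∀ z x, ∀ C ∈ B, Sat (ev φ' z x) C := by
    intro z x C hC
    rw [hev]
    exact hb z x C hC
  have hlive := live_insert (δ := δ) hy B
  refine ⟨φ', Function.update rk y (U.sup rk + 1), ⟨?_, ?_, ?_, ?_, ?_⟩, ?_,
    hst.base.trans Finset.subset_union_left, ?_, ?_, ?_, ?_, ?_⟩
  · intro z x y' hy' C hC
    rcases Finset.mem_insert.1 hy' with rfl | hy'
    · rw [Function.update_self] at hC
      exact hnew z x C hC
    · rw [Function.update_of_ne (hne y' hy')] at hC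
      exact hold z x C (hst.ovr C (hst.defs (Finset.mem_biUnion.2 ⟨y', hy', hC⟩)))
        (hst.dfd.sat z x y' hy' C hC)
  · intro y' hy'
    rcases Finset.mem_insert.1 hy' with rfl | hy'
    · rw [Function.update_self]
      exact hDf
    · rw [Function.update_of_ne (hne y' hy')]
      exact hst.dfd.dfn y' hy'
  · intro y' hy' C hC y'' c hc
    rcases Finset.mem_insert.1 hy' with rfl | hy'
    · rw [Function.update_self] at hC
      rcases Finset.mem_insert.1 (hB C hC y'' c hc) with h | h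
      · exact Or.inl h
      · right
        refine ⟨Finset.mem_insert_of_mem h, ?_⟩
        rw [Function.update_self, Function.update_of_ne (hne _ h)]
        exact Nat.lt_succ_of_le (Finset.le_sup h)
    · rw [Function.update_of_ne (hne y' hy')] at hC
      rcases hst.dfd.ord y' hy' C hC y'' c hc with h | ⟨h, h'⟩
      · exact Or.inl h
      · right
        refine ⟨Finset.mem_insert_of_mem h, ?_⟩
        rw [Function.update_of_ne (hne _ h), Function.update_of_ne (hne _ hy')]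
        exact h'
  · intro y' hy' C hC
    exact xv_occ (Finset.mem_biUnion.2 ⟨y', hy', hC⟩)
  · intro z x y' hy'
    rw [Finset.mem_insert, not_or] at hy'
    rw [hφ', Function.update_of_ne hy'.1]
    exact hst.dfd.off z x y' hy'.2
  · rw [hlive]
    exact hm
  · rw [hlive]
    exact Finset.union_subset_union hst.defs subset_rfl
  · intro y' hy' C hC
    rcases Finset.mem_insert.1 hy' with rfl | hy'
    · rw [Function.update_self] at hC
      exact hBy C hC
    · rw [Function.update_of_ne (hne y' hy')] at hC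
      exact hst.has y' hy' C hC
  · intro C hC
    rw [hlive]
    rcases Finset.mem_union.1 hC with hC | hC
    · rcases hst.nar C hC with h | h | h
      · exact Or.inl h
      · exact Or.inr (Or.inl h)
      · exact Or.inr (Or.inr (Finset.mem_union_left _ h))
    · exact Or.inr (Or.inr (Finset.mem_union_right _ hC))
  · intro C hC
    rcases Finset.mem_union.1 hC with hC | hC
    · intro y' c hc
      exact Finset.mem_insert_of_mem (hst.ovr C hC y' c hc)
    · exact hB C hC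
  · intro σ hσ
    by_cases hall : ∀ z, σ z ∈ Γ
    · refine (hst.loc σ hall).mono ?_
      rintro x _ ⟨z, hz⟩
      exact ⟨z, hold z x _ (hst.ovr _ (hall z)) hz⟩
    · push Not at hall
      obtain ⟨z, hz⟩ := hall
      have hzB : σ z ∈ B := (Finset.mem_union.1 (hσ z)).resolve_left hz
      exact Loc.triv fun x _ => ⟨z, hnew z x _ hzB⟩

theorem stt_del {Γ Δ : CNF (V ⊕ (Y ⊕ Z))} {δ : Y → CNF (V ⊕ (Y ⊕ Z))} {U U' : Finset Y}
    {rk : Y → ℕ} (hst : Stt E β ρ s w m Γ δ U φ rk) (hU : U' ⊆ U)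
    (hbΔ : up (Y ⊕ Z) (cnf E β) ∪ U'.biUnion δ ⊆ Δ) (hΔ : Δ ⊆ Γ) (hov : ∀ C ∈ Δ, Over U' C) :
    ∃ φ' rk', Stt E β ρ s w m Δ δ U' φ' rk' := by
  classical
  obtain ⟨φ', hφ'⟩ : ∃ φ' : (Z → Bool) → (V → Bool) → Y → Bool,
      ∀ z x y, φ' z x y = if y ∈ U' then φ z x y else false := ⟨_, fun _ _ _ => rfl⟩
  have hold : ∀ z x, ∀ C : Clause (V ⊕ (Y ⊕ Z)), Over U' C → Sat (ev φ z x) C →
      Sat (ev φ' z x) C := by
    intro z x C hC
    refine sat_agree fun l hl => ?_
    rcases hl1 : l.1 with v | (y' | t)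
    · rfl
    · have hy' : y' ∈ U' := hC y' l.2 (by rw [← hl1]; exact hl)
      show φ z x y' = φ' z x y'
      rw [hφ', if_pos hy']
    · rfl
  have hdΔ : ∀ y ∈ U', ∀ C ∈ δ y, C ∈ Δ := by
    intro y hy C hC
    exact hbΔ (Finset.mem_union_right _ (Finset.mem_biUnion.2 ⟨y, hy, hC⟩))
  refine ⟨φ', rk, ⟨?_, ?_, ?_, ?_, ?_⟩, ?_, Finset.subset_union_left.trans hbΔ,
    Finset.subset_union_right.trans hbΔ, ?_, ?_, hov, ?_⟩
  · intro z x y hy C hC
    exact hold z x C (hov C (hdΔ y hy C hC)) (hst.dfd.sat z x y (hU hy) C hC)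
  · intro y hy
    exact hst.dfd.dfn y (hU hy)
  · intro y hy C hC y' b hb
    rcases hst.dfd.ord y (hU hy) C hC y' b hb with h | ⟨-, h⟩
    · exact Or.inl h
    · exact Or.inr ⟨hov C (hdΔ y hy C hC) y' b hb, h⟩
  · intro y hy C hC
    exact xv_occ (Finset.mem_biUnion.2 ⟨y, hy, hC⟩)
  · intro z x y hy
    rw [hφ', if_neg hy]
  · exact (Finset.card_le_card (occ_mono (Finset.biUnion_subset_biUnion_of_subset_left δ hU))).trans
      hst.occm
  · intro y hy C hC
    exact hst.has y (hU hy) C hC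
  · intro C hC
    rcases hst.nar C (hΔ hC) with h | h | h
    · exact Or.inl h
    · exact Or.inr (Or.inl h)
    · obtain ⟨y, hy, hCy⟩ := Finset.mem_biUnion.1 h
      obtain ⟨b, hb⟩ := hst.has y hy C hCy
      exact Or.inr (Or.inr (Finset.mem_biUnion.2 ⟨y, hov C hC y b hb, hCy⟩))
  · intro σ hσ
    refine (hst.loc σ fun z => hΔ (hσ z)).mono ?_
    rintro x _ ⟨z, hz⟩
    exact ⟨z, hold z x _ (hov _ (hσ z)) hz⟩

theorem derives_inv (h : Cx E β ρ s w θ D (Fintype.card (Z → Bool)) m r)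
    {L : List (Clause (V ⊕ (Y ⊕ Z)))} {Γ : CNF (V ⊕ (Y ⊕ Z))} {δ : Y → CNF (V ⊕ (Y ⊕ Z))}
    {U : Finset Y} (hd : DerivesN (cnf E β) m r L Γ δ U)
    (hL : ∀ C ∈ L, TS ρ C ∨ (xv C).card ≤ w) :
    ∃ φ rk, Stt E β ρ s w m Γ δ U φ rk := by
  classical
  induction hd with
  | start =>
    refine ⟨fun _ _ _ => false, fun _ => 0, ⟨?_, ?_, ?_, ?_, fun _ _ _ _ => rfl⟩, ?_, subset_rfl,
      ?_, ?_, ?_, ?_, ?_⟩
    · intro z x y hy
      exact absurd hy (Finset.notMem_empty _)
    · intro y hy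
      exact absurd hy (Finset.notMem_empty _)
    · intro y hy
      exact absurd hy (Finset.notMem_empty _)
    · intro y hy
      exact absurd hy (Finset.notMem_empty _)
    · have : occ (((∅ : Finset Y).biUnion fun _ => (∅ : CNF (V ⊕ (Y ⊕ Z))))) = ∅ := by
        rw [Finset.biUnion_empty]
        unfold occ
        rw [Finset.filter_eq_empty_iff]
        rintro v - ⟨C, hC, -⟩
        exact absurd hC (Finset.notMem_empty _)
      rw [this]
      simp
    · rw [Finset.biUnion_empty]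
      exact Finset.empty_subset _
    · intro y hy
      exact absurd hy (Finset.notMem_empty _)
    · intro B hB
      right
      left
      obtain ⟨B', hB', rfl⟩ := mem_up.1 hB
      obtain ⟨j, a, rfl, -, -⟩ := mem_cnf hB'
      rw [xv_lf]
      exact ((Finset.card_le_card (vars_clauseOf E j a)).trans (edge_card E j)).trans h.hkw
    · intro B hB y b hb
      obtain ⟨B', hB', rfl⟩ := mem_up.1 hB
      obtain ⟨v, hv, -⟩ := mem_lf hb
      exact absurd hv (by simp)
    · intro σ hσ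
      obtain ⟨B', hB', hBe⟩ := mem_up.1 (hσ fun _ => false)
      obtain ⟨j, a, rfl, ha, -⟩ := mem_cnf hB'
      refine ⟨{j}, ?_, fun x _ hx => ⟨fun _ => false, ?_⟩⟩
      · rw [Finset.card_singleton]
        have := h.hs
        have e5 : 1 ≤ k := Odd.pos h.hodd
        omega
      · rw [← hBe, sat_lf]
        exact (eqAt_iff E β j x).1 (hx j (Finset.mem_singleton_self j)) a ha
  | @rup L Γ δ U C _ hCU hR ih =>
    obtain ⟨φ, rk, hst⟩ := ih fun D hD => hL D (List.mem_cons_of_mem _ hD)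
    exact ⟨φ, rk, stt_insert h hst (hL C List.mem_cons_self) hCU (Or.inl hR)⟩
  | @sr L Γ δ U C _ hCU hR ih =>
    obtain ⟨φ, rk, hst⟩ := ih fun D hD => hL D (List.mem_cons_of_mem _ hD)
    exact ⟨φ, rk, stt_insert h hst (hL C List.mem_cons_self) hCU (Or.inr hR)⟩
  | @ext L Γ B δ U y _ hy hB hBy hDf hm ih =>
    obtain ⟨φ, rk, hst⟩ := ih hL
    exact stt_ext hst hy hB hBy hDf hm
  | @del L Γ Δ δ U U' _ hU hbΔ hΔ hov ih =>
    obtain ⟨φ, rk, hst⟩ := ih hL
    exact stt_del hst hU hbΔ hΔ hov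

theorem no_ref (h : Cx E β ρ s w θ D (Fintype.card (Z → Bool)) m r)
    {L : List (Clause (V ⊕ (Y ⊕ Z)))} {Γ : CNF (V ⊕ (Y ⊕ Z))} {δ : Y → CNF (V ⊕ (Y ⊕ Z))}
    {U : Finset Y} (hd : DerivesN (cnf E β) m r L Γ δ U)
    (hL : ∀ C ∈ L, TS ρ C ∨ (xv C).card ≤ w) : (∅ : Clause (V ⊕ (Y ⊕ Z))) ∉ Γ := by
  intro h0
  obtain ⟨φ, rk, hst⟩ := derives_inv h hd hL
  have h4 := hst.loc (fun _ => ∅) fun _ => h0
  have hs0 : Supp (∅ : Finset V) fun x => ∃ z : Z → Bool,
      Sat (ev φ z x) (∅ : Clause (V ⊕ (Y ⊕ Z))) := by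
    rintro x x' _ ⟨z, l, hl, -⟩
    exact absurd hl (Finset.notMem_empty _)
  obtain ⟨G, hG, h⟩ := h4.min h.exp hs0
  have hG0 : G = ∅ := by
    rw [Finset.card_empty] at hG
    exact Finset.card_eq_zero.1 (Nat.le_zero.1 hG)
  subst hG0
  obtain ⟨z, l, hl, -⟩ := h (fun v => (ρ v).getD false) (by
    intro v b hv
    show (ρ v).getD false = b
    rw [hv]; rfl) (fun j hj => absurd hj (Finset.notMem_empty _))
  exact absurd hl (Finset.notMem_empty _)

end Inv

end Pool.Agent.SRN
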