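import Mathlib
import Pool.Agent.SRN.Inv
import Pool.Agent.SRN.Graph

/-!
# SR with new variables: the exponential lower bound
-/

namespace Pool.Agent.SRN

open Finset Filter Pool.Agent.SR

theorem nu_restr {t Q I L K q : ℕ} (hQ : 0 < Q) (hlt : L < 2 ^ t)
    (h : (I : ℝ) * (2 ^ K * (2 / (Q : ℝ)) ^ q) ≤ 1 / 2) :
    (L : ℝ) * Real.exp (-(1 / (Q : ℝ))) ^ (Q * (t + 2)) +
      (I : ℝ) * (2 ^ K * (2 / (Q : ℝ)) ^ q) < 1 := by
  have hMR : (0 : ℝ) < Q := by exact_mod_cast hQ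
  have e1 : Real.exp (-(1 / (Q : ℝ))) ^ (Q * (t + 2)) = Real.exp (-((t : ℝ) + 2)) := by
    rw [← Real.exp_nat_mul]
    congr 1
    push_cast
    field_simp
  have e2 : (L : ℝ) ≤ Real.exp t := by
    have h1 : (L : ℝ) ≤ 2 ^ t := by exact_mod_cast hlt.le
    have h2 : (2 : ℝ) ^ t ≤ Real.exp 1 ^ t := by
      refine pow_le_pow_left₀ (by norm_num) ?_ t
      have := Real.add_one_le_exp (1 : ℝ)
      exact le_trans (by norm_num) this
    rw [← Real.exp_nat_mul, mul_one] at h2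
    exact h1.trans h2
  have e3 : (L : ℝ) * Real.exp (-(1 / (Q : ℝ))) ^ (Q * (t + 2)) < 1 / 2 := by
    rw [e1]
    have h3 : (L : ℝ) * Real.exp (-((t : ℝ) + 2)) ≤
        Real.exp t * Real.exp (-((t : ℝ) + 2)) :=
      mul_le_mul_of_nonneg_right e2 (Real.exp_pos _).le
    have h4 : Real.exp t * Real.exp (-((t : ℝ) + 2)) = Real.exp (-2) := by
      rw [← Real.exp_add]; congr 1; ring
    have h5 : Real.exp (-2) < 1 / 2 := by
      clear h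
      have h5 : Real.exp (-2) * Real.exp 2 = 1 := by rw [← Real.exp_add]; simp
      have h6 := Real.add_one_le_exp (2 : ℝ)
      have h7 := Real.exp_pos (-2)
      nlinarith
    exact lt_of_le_of_lt (h3.trans (le_of_eq h4)) h5
  calc _ < 1 / 2 + 1 / 2 := add_lt_add_of_lt_of_le e3 h
    _ = 1 := by norm_num

theorem nu_e4 {P ℓ N Q I K b : ℕ} (hQ : 1 ≤ Q) (hI : I ≤ 2 * (P * (ℓ * N)))
    (hN : N < (Q + 1) ^ b) (h : (4 * (P * (2 ^ b * (2 ^ K * 2 ^ (b + 1))))) * ℓ ≤ Q) :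
    (I : ℝ) * (2 ^ K * (2 / (Q : ℝ)) ^ (b + 1)) ≤ 1 / 2 := by
  have hQR : (0 : ℝ) < Q := by exact_mod_cast hQ
  have h1 : N ≤ (2 * Q) ^ b := hN.le.trans (Nat.pow_le_pow_left (by omega) b)
  have h2 : I ≤ 2 * (P * (ℓ * (2 * Q) ^ b)) :=
    hI.trans (Nat.mul_le_mul_left _ (Nat.mul_le_mul_left _ (Nat.mul_le_mul_left _ h1)))
  have h3 : (I : ℝ) ≤ 2 * (P * (ℓ * (2 * (Q : ℝ)) ^ b)) := by exact_mod_cast h2
  refine (mul_le_mul_of_nonneg_right h3 (by positivity)).trans ?_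
  have h4 : 2 * ((P : ℝ) * (ℓ * (2 * (Q : ℝ)) ^ b)) * (2 ^ K * (2 / (Q : ℝ)) ^ (b + 1)) =
      ((2 * (P * (2 ^ b * (2 ^ K * 2 ^ (b + 1))))) * ℓ) / Q := by
    rw [mul_pow, div_pow, pow_succ (Q : ℝ) b]
    field_simp
  rw [h4, div_le_iff₀ hQR]
  have h5 : (4 * ((P : ℝ) * (2 ^ b * (2 ^ K * 2 ^ (b + 1))))) * ℓ ≤ Q := by exact_mod_cast h
  linarith

theorem nu_y {P ℓ c N Q e : ℕ} (hQ : 1 ≤ Q) (hN : 1 ≤ N) (he : 1 ≤ e) (hc : 33 * c ≤ Q) {B : ℝ}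
    (hB : 16 * ((2 * (P : ℝ)) * c * Real.exp (c + 1) * (33 * c)) ≤ B) (h : B * ℓ ≤ Q) :
    (2 * ((P : ℝ) * ℓ)) * (c : ℝ) * Real.exp ((c : ℝ) + 1) *
      (((c * (33 * (N / Q)) : ℕ) : ℝ) / (N : ℝ)) ^ e ≤ 1 / 16 := by
  have hQR : (0 : ℝ) < Q := by exact_mod_cast hQ
  have hNR : (0 : ℝ) < N := by exact_mod_cast hN
  have h1 : ((c * (33 * (N / Q)) : ℕ) : ℝ) / (N : ℝ) ≤ 33 * c / Q := by
    rw [div_le_div_iff₀ hNR hQR]
    have e1 : N / Q * Q ≤ N := Nat.div_mul_le_self N Q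
    have e2 : c * (33 * (N / Q)) * Q ≤ 33 * c * N := by
      calc c * (33 * (N / Q)) * Q = 33 * c * (N / Q * Q) := by ring
        _ ≤ 33 * c * N := Nat.mul_le_mul_left _ e1
    exact_mod_cast e2
  have h2 : 33 * (c : ℝ) / Q ≤ 1 := by
    rw [div_le_one hQR]
    exact_mod_cast hc
  have h3 : (((c * (33 * (N / Q)) : ℕ) : ℝ) / (N : ℝ)) ^ e ≤ 33 * c / Q := by
    have f0 : 0 ≤ ((c * (33 * (N / Q)) : ℕ) : ℝ) / (N : ℝ) := by positivity
    calc (((c * (33 * (N / Q)) : ℕ) : ℝ) / (N : ℝ)) ^ e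
        ≤ (((c * (33 * (N / Q)) : ℕ) : ℝ) / (N : ℝ)) ^ 1 :=
          pow_le_pow_of_le_one f0 (h1.trans h2) he
      _ ≤ 33 * c / Q := by rw [pow_one]; exact h1
  refine (mul_le_mul_of_nonneg_left h3 (by positivity)).trans ?_
  have h4 : (2 * ((P : ℝ) * ℓ)) * (c : ℝ) * Real.exp ((c : ℝ) + 1) * (33 * c / Q) =
      (((2 * (P : ℝ)) * c * Real.exp (c + 1) * (33 * c)) * ℓ) / Q := by
    field_simp
  rw [h4, div_le_iff₀ hQR]
  have h5 : 16 * ((2 * (P : ℝ)) * c * Real.exp (c + 1) * (33 * c)) * ℓ ≤ Q :=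
    (mul_le_mul_of_nonneg_right hB (by positivity)).trans h
  linarith

section Xc

variable {V Y Z : Type*} [Fintype V] [DecidableEq V] [DecidableEq Y] [DecidableEq Z]

/-- The literals over the variables of the CNF of a clause. -/
def xc (C : Clause (V ⊕ (Y ⊕ Z))) : Clause V :=
  univ.filter fun l : Lit V => (Sum.inl l.1, l.2) ∈ C

theorem vars_xc (C : Clause (V ⊕ (Y ⊕ Z))) : vars (xc C) = xv C := by
  ext v
  rw [mem_xv]
  constructor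
  · intro hv
    obtain ⟨l, hl, rfl⟩ := Finset.mem_image.1 hv
    exact ⟨l.2, (Finset.mem_filter.1 hl).2⟩
  · rintro ⟨b, hb⟩
    exact Finset.mem_image.2 ⟨(v, b), Finset.mem_filter.2 ⟨Finset.mem_univ _, hb⟩, rfl⟩

theorem ts_xc {ρ : V → Option Bool} {C : Clause (V ⊕ (Y ⊕ Z))} (h : TSat ρ (xc C)) :
    TS ρ C := by
  obtain ⟨l, hl, h⟩ := h
  exact ⟨l.1, l.2, (Finset.mem_filter.1 hl).2, h⟩

end Xc

theorem core (a : ℕ) (ha : Odd a) : ∃ A : ℕ, ∀ N Q ℓ : ℕ, Q ^ (31 * a - 1) ≤ N →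
    N < (Q + 1) ^ (31 * a - 1) → 64 * N ≤ 2 ^ ℓ → 1 ≤ ℓ → A * ℓ ≤ Q →
    ∃ F : CNF (Fin N), Unsat F ∧
      (∀ C ∈ F, C.card ≤ 201 * a ∧ ∀ l ∈ C, neg l ∉ C) ∧ F.card ≤ A * (ℓ * N) ∧
      ∀ (Y Z : Type) [DecidableEq Y] [Fintype Z] [DecidableEq Z] (m r t : ℕ), 1 ≤ t →
        m * Q ^ 2 ≤ N → (2 ^ Fintype.card Z + r) * t * Q ^ 2 ≤ N →
        ∀ (L : List (Clause (Fin N ⊕ (Y ⊕ Z)))) (Γ : CNF (Fin N ⊕ (Y ⊕ Z)))
          (δ : Y → CNF (Fin N ⊕ (Y ⊕ Z))) (U : Finset Y),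
          DerivesN F m r L Γ δ U → ∅ ∈ Γ → 2 ^ t ≤ L.length := by
  classical
  have ha1 : 1 ≤ a := Odd.pos ha
  obtain ⟨k, hk⟩ : ∃ k, k + 1 = 201 * a := ⟨201 * a - 1, by omega⟩
  obtain ⟨D, P, hD4, hP15, hDr, hD1, hDP, hDP'⟩ := const_ex ha1 hk
  obtain ⟨b, hb⟩ : ∃ b, b + 1 = 31 * a := ⟨31 * a - 1, by omega⟩
  have hb' : 31 * a - 1 = b := by omega
  have hb30 : 30 ≤ b := by omega
  rw [hb']
  obtain ⟨B, hB⟩ := exists_nat_ge (16 * ((2 * (P : ℝ)) * ((186 * a : ℕ) : ℝ) *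
    Real.exp (((186 * a : ℕ) : ℝ) + 1) * (33 * ((186 * a : ℕ) : ℝ))))
  obtain ⟨A, hA⟩ : ∃ A, A = 4 * (k + 1) + 33 * (186 * a) + 2 * (k + 1) ^ 2 * P + B +
    4 * (P * (2 ^ b * (2 ^ (k + 1) * 2 ^ (b + 1)))) + 2 * P * 2 ^ (k + 1) := ⟨_, rfl⟩
  refine ⟨A, fun N Q ℓ hQN hNQ hℓN hℓ1 hAQ => ?_⟩
  have hAi : ∀ x, x ≤ A → x * ℓ ≤ Q := fun x hx => (Nat.mul_le_mul_right _ hx).trans hAQ
  have hAi' : ∀ x, x ≤ A → x ≤ Q := fun x hx =>
    (Nat.le_mul_of_pos_right x hℓ1).trans (hAi x hx)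
  have hA1 : 4 * (k + 1) ≤ A := by rw [hA]; omega
  have hA2 : 33 * (186 * a) ≤ A := by rw [hA]; omega
  have hA3 : 2 * (k + 1) ^ 2 * P ≤ A := by rw [hA]; omega
  have hA4 : B ≤ A := by rw [hA]; omega
  have hA5 : 4 * (P * (2 ^ b * (2 ^ (k + 1) * 2 ^ (b + 1)))) ≤ A := by rw [hA]; omega
  have hA6 : 2 * P * 2 ^ (k + 1) ≤ A := by rw [hA]; omega
  clear hA
  have hQ1 : 1 ≤ Q := le_trans (by omega) (hAi' _ hA1)
  have hQN' : Q ≤ N := (Nat.le_self_pow (by omega) Q).trans hQN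
  have hN1 : 1 ≤ N := hQ1.trans hQN'
  have hNQd : Q ≤ N / Q := by
    rw [Nat.le_div_iff_mul_le hQ1]
    calc Q * Q = Q ^ 2 := by ring
      _ ≤ Q ^ b := Nat.pow_le_pow_right hQ1 (by omega)
      _ ≤ N := hQN
  have hn1 : (N : ℝ) * Real.exp (-(ℓ : ℝ)) ≤ 1 / 64 := by
    have e1 : (64 : ℝ) * N ≤ 2 ^ ℓ := by exact_mod_cast hℓN
    have e2 : (2 : ℝ) ^ ℓ ≤ Real.exp ℓ := by
      have h2 : (2 : ℝ) ^ ℓ ≤ Real.exp 1 ^ ℓ := by
        refine pow_le_pow_left₀ (by norm_num) ?_ ℓ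
        have := Real.add_one_le_exp (1 : ℝ)
        exact le_trans (by norm_num) this
      rwa [← Real.exp_nat_mul, mul_one] at h2
    have e3 : Real.exp (ℓ : ℝ) * Real.exp (-(ℓ : ℝ)) = 1 := by
      rw [← Real.exp_add]; simp
    have e4 := Real.exp_pos (-(ℓ : ℝ))
    have e5 : (64 : ℝ) * N * Real.exp (-(ℓ : ℝ)) ≤ Real.exp ℓ * Real.exp (-(ℓ : ℝ)) :=
      mul_le_mul_of_nonneg_right (e1.trans e2) e4.le
    linarith
  have hn2 : 2 * ((k + 1 : ℕ) : ℝ) ^ 2 * (P : ℝ) ≤ N := by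
    have := (hAi' _ hA3).trans hQN'
    exact_mod_cast this
  obtain ⟨s, hs⟩ : ∃ s, s = 33 * (N / Q) := ⟨_, rfl⟩
  have hcs : 186 * a * s ≤ N := by
    rw [hs]
    calc 186 * a * (33 * (N / Q)) = 33 * (186 * a) * (N / Q) := by ring
      _ ≤ Q * (N / Q) := Nat.mul_le_mul_right _ (hAi' _ hA2)
      _ ≤ N := Nat.mul_div_le N Q
  obtain ⟨ι, _, _, E, hprop, hexp, hnι, hιM⟩ := graph_ex a k D P ℓ N s ha1 hk hD4 hP15 hDr hD1
    hDP hDP' hℓ1 hN1 (by omega) hn1 hn2 hcs (by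
      rw [hs]
      refine nu_y hQ1 hN1 (by omega) (hAi' _ hA2) hB ?_
      exact_mod_cast hAi _ hA4)
  obtain ⟨β, hβ⟩ := beta_exists E hnι
  refine ⟨cnf E β, cnf_unsat E β hβ, ?_, ?_, ?_⟩
  · intro C hC
    obtain ⟨j, c, rfl, -, hta⟩ := mem_cnf hC
    refine ⟨(clauseOf_card E j c).trans hk.le, fun l hl hn => hta ⟨l, hl, hn⟩⟩
  · refine (cnf_card E β).trans ((Nat.mul_le_mul_right _ hιM).trans ?_)
    calc 2 * (P * (ℓ * N)) * 2 ^ (k + 1) = (2 * P * 2 ^ (k + 1)) * (ℓ * N) := by ring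
      _ ≤ A * (ℓ * N) := Nat.mul_le_mul_right _ hA6
  · intro Y Z _ _ _ m r t ht hm hZ L Γ δ U hder hemp
    by_contra hlt
    rw [not_le] at hlt
    obtain ⟨ρ, hL, hρ⟩ := restriction_exists (M := Q)
      (le_trans (by omega) (hAi' _ hA1)) (31 * a)
      (Q * (t + 2)) E (L.map xc) (by
        rw [List.length_map, ← hb]
        exact nu_restr hQ1 hlt (nu_e4 hQ1 hιM hNQ (hAi _ hA5)))
    have hSE := expand_of (θ := 140 * a) (ρ := ρ) (c := 186 * a) hexp (by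
      intro j
      have := hρ j
      omega)
    have hw : k + 1 ≤ Q * (t + 2) := by
      have e1 : k + 1 ≤ Q := hAi' _ (le_trans (by omega) hA1)
      exact e1.trans (Nat.le_mul_of_pos_right Q (by omega))
    have hL' : ∀ C ∈ L, TS ρ C ∨ (xv C).card ≤ Q * (t + 2) := by
      intro C hC
      rcases hL (xc C) (List.mem_map_of_mem hC) with h | h
      · exact Or.inl (ts_xc h)
      · right
        rw [vars_xc] at h
        exact h
    have hcx : Cx E β ρ s (Q * (t + 2)) (140 * a) D (Fintype.card (Z → Bool)) m r := by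
      refine ⟨hSE, hprop, hD4, by omega, ?_, by omega, le_trans (by omega) hw,
        hw, hβ, ?_⟩
      · rw [hk]
        exact Odd.mul (by decide) ha
      · rw [Fintype.card_fun, Fintype.card_bool]
        have e1 : m ≤ N / Q := by
          rw [Nat.le_div_iff_mul_le hQ1]
          calc m * Q = m * Q * 1 := by ring
            _ ≤ m * Q * Q := Nat.mul_le_mul_left _ hQ1
            _ = m * Q ^ 2 := by ring
            _ ≤ N := hm
        have e2 : (2 ^ Fintype.card Z + r) * t * Q ≤ N / Q := by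
          rw [Nat.le_div_iff_mul_le hQ1]
          calc (2 ^ Fintype.card Z + r) * t * Q * Q = (2 ^ Fintype.card Z + r) * t * Q ^ 2 := by
                ring
            _ ≤ N := hZ
        have e3 : 2 ^ Fintype.card Z * (Q * (t + 2)) + r * (Q * (t + 2)) ≤ 3 * (N / Q) := by
          calc 2 ^ Fintype.card Z * (Q * (t + 2)) + r * (Q * (t + 2))
              = (2 ^ Fintype.card Z + r) * Q * (t + 2) := by ring
            _ ≤ (2 ^ Fintype.card Z + r) * Q * (3 * t) := Nat.mul_le_mul_left _ (by omega)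
            _ = 3 * ((2 ^ Fintype.card Z + r) * t * Q) := by ring
            _ ≤ 3 * (N / Q) := Nat.mul_le_mul_left _ e2
        have e4 : 4 * (k + 1) ≤ N / Q := (hAi' _ hA1).trans hNQd
        rw [hs]
        omega
    exact no_ref hcx hder hL' hemp

end Pool.Agent.SRN
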