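import Mathlib
import Pool.Agent.SRN.Main

/-!
# SR with new variables: the exponential lower bound, in terms of the number of variables
-/

namespace Pool.Agent.SRN

open Finset Filter Pool.Agent.SR

theorem root_exists (N b : ℕ) (hb : 1 ≤ b) : ∃ Q : ℕ, Q ^ b ≤ N ∧ N < (Q + 1) ^ b := by
  classical
  have h : ∃ q : ℕ, N < (q + 1) ^ b := ⟨N, lt_of_lt_of_le (Nat.lt_succ_self N)
    (Nat.le_self_pow (by omega) _)⟩
  refine ⟨Nat.find h, ?_, Nat.find_spec h⟩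
  rcases Nat.eq_zero_or_pos (Nat.find h) with h0 | h0
  · rw [h0, zero_pow (by omega)]
    exact Nat.zero_le _
  · have h1 := Nat.find_min h (m := Nat.find h - 1) (by omega)
    rw [not_lt] at h1
    have h2 : Nat.find h - 1 + 1 = Nat.find h := by omega
    rw [h2] at h1
    exact h1

theorem poly_event (A b : ℕ) : ∃ n₀ : ℕ, ∀ n : ℕ, n₀ ≤ n → (A * (n + 7)) ^ b ≤ 2 ^ n := by
  have h1 : Tendsto (fun n : ℕ => (n : ℝ) ^ b / (2 : ℝ) ^ n) atTop (nhds 0) :=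
    tendsto_pow_const_div_const_pow_of_one_lt b (by norm_num)
  have h2 : Tendsto (fun n : ℕ => ((8 * A : ℕ) : ℝ) ^ b * ((n : ℝ) ^ b / (2 : ℝ) ^ n)) atTop
      (nhds (((8 * A : ℕ) : ℝ) ^ b * 0)) := h1.const_mul _
  rw [mul_zero] at h2
  obtain ⟨n₀, hn₀⟩ := eventually_atTop.1
    ((h2.eventually (ge_mem_nhds (by norm_num : (0 : ℝ) < 1))).and (eventually_ge_atTop 1))
  refine ⟨n₀, fun n hn => ?_⟩
  obtain ⟨h3, h4⟩ := hn₀ n hn
  have h5 : ((8 * A : ℕ) : ℝ) ^ b * (n : ℝ) ^ b ≤ 2 ^ n := by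
    rw [← mul_div_assoc, div_le_one (by positivity)] at h3
    exact h3
  have h6 : (8 * A) ^ b * n ^ b ≤ 2 ^ n := by exact_mod_cast h5
  refine le_trans ?_ h6
  rw [← mul_pow]
  refine Nat.pow_le_pow_left ?_ b
  calc A * (n + 7) ≤ A * (8 * n) := Nat.mul_le_mul_left _ (by omega)
    _ = 8 * A * n := by ring

theorem lower_bound : ∀ ε : ℝ, 0 < ε → ∃ k K N₀ : ℕ, ∀ N : ℕ, N₀ ≤ N →
    ∃ F : CNF (Fin N), Unsat F ∧ (∀ C ∈ F, C.card ≤ k ∧ ∀ l ∈ C, neg l ∉ C) ∧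
      (F.card : ℝ) ≤ K * (N * Real.log N) ∧
      ∀ (Y Z : Type) [DecidableEq Y] [Fintype Z] [DecidableEq Z] (m r t : ℕ), 1 ≤ t →
        (m : ℝ) ≤ (N : ℝ) ^ (1 - ε) →
        (((2 ^ Fintype.card Z + r) * t : ℕ) : ℝ) ≤ (N : ℝ) ^ (1 - ε) →
        ∀ (L : List (Clause (Fin N ⊕ (Y ⊕ Z)))) (Γ : CNF (Fin N ⊕ (Y ⊕ Z)))
          (δ : Y → CNF (Fin N ⊕ (Y ⊕ Z))) (U : Finset Y),
          DerivesN F m r L Γ δ U → ∅ ∈ Γ → 2 ^ t ≤ L.length := by
  intro ε hε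
  obtain ⟨u, hu⟩ := exists_nat_ge (1 / ε)
  obtain ⟨a, ha⟩ : ∃ a, a = 2 * u + 1 := ⟨_, rfl⟩
  have haodd : Odd a := ⟨u, ha⟩
  obtain ⟨b, hb⟩ : ∃ b, b = 31 * a - 1 := ⟨_, rfl⟩
  have hb2 : (2 : ℝ) ≤ ε * b := by
    have e1 : 1 ≤ ε * u := by
      rw [div_le_iff₀ hε] at hu
      linarith
    have e2 : 2 * u ≤ b := by omega
    have e3 : (2 : ℝ) * u ≤ b := by exact_mod_cast e2
    nlinarith
  obtain ⟨A, hA⟩ := core a haodd
  rw [← hb] at hA
  obtain ⟨n₀, hn₀⟩ := poly_event A b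
  refine ⟨201 * a, 9 * A, max 3 (2 ^ n₀), fun N hN => ?_⟩
  have hN3 : 3 ≤ N := le_trans (le_max_left _ _) hN
  have hN2 : 2 ^ n₀ ≤ N := le_trans (le_max_right _ _) hN
  obtain ⟨Q, hQ1, hQ2⟩ := root_exists N b (by omega)
  obtain ⟨n, hn⟩ : ∃ n, n = Nat.log 2 N := ⟨_, rfl⟩
  have hnN : 2 ^ n ≤ N := by
    rw [hn]
    exact Nat.pow_log_le_self 2 (by omega)
  have hNn : N < 2 ^ (n + 1) := by
    rw [hn]
    exact Nat.lt_pow_succ_log_self (by norm_num) N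
  have hn0 : n₀ ≤ n := by
    rw [hn]
    exact (Nat.le_log_iff_pow_le (by norm_num) (by omega)).2 hN2
  have h64 : 64 * N ≤ 2 ^ (n + 7) := by
    have : (2 : ℕ) ^ (n + 7) = 64 * 2 ^ (n + 1) := by ring
    omega
  have hAQ : A * (n + 7) ≤ Q := by
    by_contra hlt
    rw [not_le] at hlt
    have h1 : (Q + 1) ^ b ≤ (A * (n + 7)) ^ b := Nat.pow_le_pow_left hlt b
    have h2 := hn₀ n hn0
    omega
  obtain ⟨F, hF1, hF2, hF3, hF4⟩ := hA N Q (n + 7) hQ1 hQ2 h64 (by omega) hAQ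
  refine ⟨F, hF1, hF2, ?_, ?_⟩
  · have hNR : (3 : ℝ) ≤ N := by exact_mod_cast hN3
    have hlog1 : 1 ≤ Real.log N := by
      rw [Real.le_log_iff_exp_le (by linarith)]
      have := Real.exp_one_lt_d9
      linarith
    have hlog2 : (n : ℝ) ≤ 2 * Real.log N := by
      have e1 : (n : ℝ) * Real.log 2 ≤ Real.log N := by
        rw [← Real.log_pow]
        refine Real.log_le_log (by positivity) ?_
        exact_mod_cast hnN
      have e2 := Real.log_two_gt_d9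
      have e3 : (0 : ℝ) ≤ n := Nat.cast_nonneg n
      nlinarith
    have h1 : (F.card : ℝ) ≤ A * ((n + 7) * N) := by exact_mod_cast hF3
    refine h1.trans ?_
    push_cast
    have h2 : ((n : ℝ) + 7) * N ≤ 9 * (N * Real.log N) := by
      have e4 : (n : ℝ) + 7 ≤ 9 * Real.log N := by linarith
      nlinarith
    calc (A : ℝ) * ((n + 7) * N) ≤ A * (9 * (N * Real.log N)) :=
          mul_le_mul_of_nonneg_left h2 (Nat.cast_nonneg A)
      _ = 9 * A * (N * Real.log N) := by ring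
  · intro Y Z _ _ _ m r t ht hm hZ L Γ δ U hd h0
    have hNR : (1 : ℝ) ≤ N := by
      have : 1 ≤ N := by omega
      exact_mod_cast this
    have hQ0 : (0 : ℝ) ≤ Q := Nat.cast_nonneg Q
    have hQε : (Q : ℝ) ^ 2 ≤ (N : ℝ) ^ ε := by
      rcases Nat.eq_zero_or_pos Q with hq | hq
      · rw [hq]
        push_cast
        have : (0 : ℝ) ≤ (N : ℝ) ^ ε := by positivity
        simpa using this
      · have hQR : (1 : ℝ) ≤ Q := by exact_mod_cast hq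
        calc (Q : ℝ) ^ 2 = (Q : ℝ) ^ (2 : ℝ) := by rw [← Real.rpow_natCast]; norm_num
          _ ≤ (Q : ℝ) ^ (ε * b) := Real.rpow_le_rpow_of_exponent_le hQR hb2
          _ = ((Q : ℝ) ^ b) ^ ε := by
              rw [mul_comm, Real.rpow_mul hQ0, Real.rpow_natCast]
          _ ≤ (N : ℝ) ^ ε := by
              refine Real.rpow_le_rpow (by positivity) ?_ hε.le
              exact_mod_cast hQ1
    have hmul : ∀ x : ℕ, (x : ℝ) ≤ (N : ℝ) ^ (1 - ε) → x * Q ^ 2 ≤ N := by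
      intro x hx
      have e1 : (x : ℝ) * (Q : ℝ) ^ 2 ≤ (N : ℝ) ^ (1 - ε) * (N : ℝ) ^ ε :=
        mul_le_mul hx hQε (by positivity) (by positivity)
      rw [← Real.rpow_add (by linarith), sub_add_cancel, Real.rpow_one] at e1
      exact_mod_cast e1
    exact hF4 Y Z m r t ht (hmul m hm) (hmul _ hZ) L Γ δ U hd h0

end Pool.Agent.SRN
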